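import Pool.Agent.Lib.MP_7cdc3e_gt.T0.Spec
import Pool.Agent.Lib.MP_7cdc3e_gt.C.Defs
import Pool.Agent.Lib.MP_7cdc3e_gt.A.Conn

/-!
# MP_7cdc3e_gt, T0: the exported statements, in the language of `C/Defs`

The statements `X…` are `Prop`s about closed and open subsets of `RP3`; they are proved here from the
statements `S_…` of `T0/Spec` and `AS/R3/Spec`.
-/

set_option autoImplicit false

open HoloConj Pool.Agent.Lib.SingHom Module AS AS.R3

namespace TightRP

namespace T0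

open Q (S3 mk mkC)
open C3 (CSys W up pj)

theorem up_eq (A : Set RP3) : up A = Ut A := by
  ext x
  constructor
  · rintro ⟨h, h'⟩
    refine ⟨h, ?_⟩
    rw [C3.pj_mk h] at h'
    exact h'
  · rintro ⟨h, h'⟩
    refine ⟨h, ?_⟩
    rw [C3.pj_mk h]
    exact h'

theorem cs_up {A : Set RP3} (hA : IsClosed A) : Cs (Pm E4) (up A) :=
  ⟨C3.up_closed hA, C3.up_sub A, C3.up_iv A⟩

theorem up_compl (V : Set RP3) : up Vᶜ = S \ up V := by
  rw [up_eq, up_eq, Ut_compl]

/-- closed half-spaces: every class is `0` or a power of `a` -/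
def XGen : Prop := ∀ (F : Type) [Field F] (ev : W →ₗ[ℝ] (RP3 → ℝ)), CSys F ev →
  ∀ g, Gen (up {x | 0 ≤ ev g x})

/-- open half-spaces are preconnected -/
def XPre : Prop := ∀ (F : Type) [Field F] (ev : W →ₗ[ℝ] (RP3 → ℝ)), CSys F ev →
  ∀ g, IsPreconnected {x | 0 < ev g x}

/-- (top) -/
def XTop : Prop := ∀ (A : Set RP3) (k : ℕ), IsClosed A → (4 ≤ k ∨ (3 ≤ k ∧ A ≠ Set.univ)) →
  ∀ x : H (Pm E4) ∅ k (up A), x = 0

/-- `a = 0` on closed even sets only -/
def XOne : Prop := ∀ (A : Set RP3), IsClosed A →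
  (ap 1 (up A) (C3.zero_notMem_up A) = 0 ↔ C3.Even A)

/-- the complement of an even open set has `a² ≠ 0` -/
def XEv : Prop := ∀ (V : Set RP3), IsOpen V → C3.Even V →
  ap 2 (up Vᶜ) (C3.zero_notMem_up Vᶜ) ≠ 0

/-- the complement of an odd connected open set has no `H²` -/
def XOdd : Prop := ∀ (V : Set RP3), IsOpen V → V.Nonempty → IsPreconnected V → ¬ C3.Even V →
  ∀ x : H (Pm E4) ∅ 2 (up Vᶜ), x = 0

/-- `H²` of the complement of a connected open set -/
def XRm : Prop := ∀ (V : Set RP3), IsOpen V → IsPreconnected V → Ont (Pm E4) 2 (up Vᶜ)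

/-- open connected sets are even or have connected preimage -/
def XDic : Prop := ∀ (V : Set RP3), IsOpen V → IsPreconnected V →
  C3.Even V ∨ IsPreconnected (up V)

/-- powers of `a` -/
def XPow : Prop := ∀ (A : Set RP3) (i j : ℕ), i ≤ j → ap i (up A) (C3.zero_notMem_up A) = 0 →
  ap j (up A) (C3.zero_notMem_up A) = 0

/-- even open sets and `H_1` -/
def XH1 : Prop := ∀ (F : Type) [Field F], (2 : F) = 0 → ∀ V : Set RP3, IsOpen V →
  IsPreconnected V → HInj F V 1 → (C3.Even V ↔ Subsingleton (Hq F 1 V))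

theorem even_iff (V : Set RP3) : C3.Even V ↔ EvV V := by
  unfold C3.Even EvV
  rw [up_eq]

theorem evn_iff (V : Set RP3) : Evn (up Vᶜ) ↔ C3.Even V := by
  rw [up_compl]
  constructor
  · rintro ⟨U, hU, h⟩
    exact ⟨U, hU, fun x hx => h x (C3.up_sub V hx) fun h2 => h2.2 hx⟩
  · rintro ⟨U, hU, h⟩
    refine ⟨U, hU, fun x hx hx2 => h x ?_⟩
    by_contra h3
    exact hx2 ⟨hx, h3⟩

theorem cmod_up (h : S_CmU) {V : Set RP3} (hV : IsOpen V) (hp : IsPreconnected V) :
    Cmod (Pm E4) (up Vᶜ) := by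
  rw [up_eq, Ut_compl]
  exact h V hV hp

theorem xPre (h1 : Ver.ConnStmt) : XPre := by
  intro F _ ev h g
  exact (h1 F RP3 _ h.tsys (ev g) ⟨g, rfl⟩).1

theorem pre_c (hP : XPre) {F : Type} [Field F] {ev : W →ₗ[ℝ] (RP3 → ℝ)} (h : CSys F ev) (g : W)
    (c : ℝ) : IsPreconnected {x | c < ev g x} ∧ IsPreconnected {x | ev g x < c} ∧
      HInj F {x | c < ev g x} 1 := by
  obtain ⟨u, hu⟩ := h.one
  have h1 : ∀ x, ev (g - c • u) x = ev g x - c := by
    intro x
    rw [map_sub, map_smul, hu]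
    simp
  have h2 : {x | c < ev g x} = {x | 0 < ev (g - c • u) x} := by
    ext x
    simp only [Set.mem_setOf_eq]
    rw [h1]
    constructor
    · intro h3; linarith
    · intro h3; linarith
  have h3 : {x | ev g x < c} = {x | 0 < ev (c • u - g) x} := by
    ext x
    have h4 : ev (c • u - g) x = c - ev g x := by
      rw [map_sub, map_smul, hu]
      simp
    simp only [Set.mem_setOf_eq]
    rw [h4]
    constructor
    · intro h3; linarith
    · intro h3; linarith
  rw [h2, h3]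
  exact ⟨hP F ev h _, hP F ev h _, h.tight _ 1 le_rfl⟩

theorem xGen (hP : XPre) (h1 : S_Ten) : XGen := by
  intro F _ ev h g
  rw [up_eq]
  exact h1 F h.char2 (ev g) (h.cont g) (fun c => (pre_c hP h g c).1)
    (fun c => (pre_c hP h g c).2.1) (fun c => (pre_c hP h g c).2.2)

theorem xTop (h1 : AS.R3.S_H3) : XTop := by
  intro A k hA hk
  refine h1 (Pm E4) (up A) k gp_Pm (cs_up hA) ?_
  rcases hk with hk | ⟨hk, hA'⟩
  · exact Or.inl hk
  · right
    refine ⟨hk, fun h2 => hA' ?_⟩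
    ext z
    obtain ⟨x, hx, rfl⟩ := C3.pj_surj z
    have h3 : x ∈ up A := by
      rw [h2]
      exact hx
    exact ⟨fun _ => trivial, fun _ => h3.2⟩

theorem xOne (h1 : AS.R3.S_One) : XOne := by
  intro A hA
  rw [h1 (up A) (C3.zero_notMem_up A) (cs_up hA)]
  constructor
  · rintro ⟨B, hBA, hB, h2⟩
    have h3 : IsClosed (up A ∩ {x | -x ∈ B}) :=
      (C3.up_closed hA).inter (hB.preimage continuous_neg)
    refine ⟨(up A ∩ {x | -x ∈ B})ᶜ, h3.isOpen_compl, fun x hx => ?_⟩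
    have hx' : -x ∈ up A := C3.neg_mem_up hx
    have h4 := h2 x hx
    simp only [Set.mem_compl_iff, Set.mem_inter_iff, Set.mem_setOf_eq, neg_neg, hx, hx',
      true_and, not_not]
    tauto
  · rintro ⟨U, hU, h2⟩
    refine ⟨up A ∩ {x | -x ∉ U}, fun x hx => hx.1,
      (C3.up_closed hA).inter (hU.isClosed_compl.preimage continuous_neg), fun x hx => ?_⟩
    have hx' : -x ∈ up A := C3.neg_mem_up hx
    have h4 := h2 x hx
    simp only [Set.mem_inter_iff, Set.mem_setOf_eq, neg_neg, hx, hx', true_and, not_not]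
    tauto

theorem xEv (h1 : AS.R3.S_Ev) : XEv := by
  intro V hV hE
  exact h1 (up Vᶜ) (C3.zero_notMem_up Vᶜ) (cs_up hV.isClosed_compl) ((evn_iff V).mpr hE)

theorem xDic (h1 : AS.R3.S_Dic) (h2 : S_CmU) : XDic := by
  intro V hV hp
  have h3 : S \ up Vᶜ = up V := by
    rw [up_compl, Set.sdiff_sdiff_right_self, Set.inter_eq_right]
    exact C3.up_sub V
  rcases h1 (up Vᶜ) (cs_up hV.isClosed_compl) (cmod_up h2 hV hp) with h | h
  · right
    rw [← h3]
    exact h
  · exact Or.inl ((evn_iff V).mp h)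

theorem xOdd (h1 : AS.R3.S_Odd) (h2 : XDic) : XOdd := by
  intro V hV hn hp hE
  have h3 : S \ up Vᶜ = up V := by
    rw [up_compl, Set.sdiff_sdiff_right_self, Set.inter_eq_right]
    exact C3.up_sub V
  refine h1 (up Vᶜ) (cs_up hV.isClosed_compl) ?_ ?_
  · intro h4
    obtain ⟨z, hz⟩ := hn
    obtain ⟨x, hx, rfl⟩ := C3.pj_surj z
    have h5 : x ∈ up Vᶜ := by
      rw [h4]
      exact hx
    exact h5.2 hz
  · rw [h3]
    exact (h2 V hV hp).resolve_left hE

theorem xRm (h1 : AS.R3.S_Rm) (h2 : S_CmU) (h3 : AS.R3.S_RP) : XRm := by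
  intro V hV hp
  exact h1 (Pm E4) (up Vᶜ) gp_Pm (cs_up hV.isClosed_compl) (cmod_up h2 hV hp) ⟨_, h3.1⟩

theorem xPow (h1 : AS.R3.S_Pow) : XPow := fun A i j hij h => h1 (up A) _ i j hij h

theorem xH1 (h1 : S_EvO) : XH1 := by
  intro F _ hF V hV hp hi
  rw [even_iff]
  exact h1 F hF V hV hp hi

end T0

end TightRP
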