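import Pool.Agent.Lib.MP_7cdc3e_gt.T0.Spec

/-!
# MP_7cdc3e_gt, T0/Arc: short arcs
-/

set_option autoImplicit false

open HoloConj Pool.Agent.Lib.SingHom Module AS AS.R3

namespace TightRP

namespace T0

open Q (S3 mk mkC)

/-- the segment -/
private noncomputable def wt (p q : E4) (t : Sx 1) : E4 := p + (t 1 : ℝ) • (q - p)

private theorem wt_cont (p q : E4) : Continuous (wt p q) := by
  unfold wt
  have h : Continuous fun t : Sx 1 => (t 1 : ℝ) := (continuous_apply 1).comp continuous_subtype_val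
  exact continuous_const.add (h.smul continuous_const)

private theorem t_mem (t : Sx 1) : 0 ≤ (t 1 : ℝ) ∧ (t 1 : ℝ) ≤ 1 :=
  ⟨stdSimplex.zero_le t 1, stdSimplex.le_one t 1⟩

private theorem wt_dist (p q : E4) (t : Sx 1) : ‖wt p q t - p‖ ≤ dist p q := by
  have h1 : wt p q t - p = (t 1 : ℝ) • (q - p) := by
    unfold wt
    abel
  rw [h1, norm_smul, Real.norm_of_nonneg (t_mem t).1, dist_comm, dist_eq_norm]
  exact mul_le_of_le_one_left (norm_nonneg _) (t_mem t).2

private theorem wt_norm {p q : E4} (hp : p ∈ S) (t : Sx 1) : |1 - ‖wt p q t‖| ≤ dist p q := by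
  have h1 := abs_norm_sub_norm_le (wt p q t) p
  rw [mem_S.mp hp] at h1
  rw [abs_sub_comm]
  exact h1.trans (wt_dist p q t)

/-- **Arc.** Short arcs. -/
theorem tArc : S_Arc := by
  intro U X ε hU hX hXU hε
  have hX_S : X ⊆ S := hXU.trans (Ut_sub U)
  have h1 : IsOpen (mk ⁻¹' U) := hU.preimage mkC.continuous
  obtain ⟨O, hO, hOU⟩ := isOpen_induced_iff.mp h1
  have hOS : ∀ x : S3, (x : E4) ∈ O ↔ mk x ∈ U := by
    intro x
    have h2 : x ∈ Subtype.val ⁻¹' O ↔ x ∈ mk ⁻¹' U := by rw [hOU]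
    exact h2
  have hXO : X ⊆ O := by
    intro x hx
    obtain ⟨hxS, hxU⟩ := hXU hx
    exact (hOS ⟨x, hxS⟩).mpr hxU
  obtain ⟨η, hη, hthick⟩ := hX.exists_thickening_subset_open hO hXO
  refine ⟨min (1 / 2) (min η ε / 2), by positivity, ?_⟩
  intro p hp q hq hpq
  have hpS := hX_S hp
  have hqS := hX_S hq
  have hd1 : dist p q < 1 / 2 := hpq.trans_le (min_le_left _ _)
  have hd2 : 2 * dist p q < η := by
    have := hpq.trans_le ((min_le_right _ _).trans
      (div_le_div_of_nonneg_right (min_le_left η ε) (by norm_num)))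
    linarith
  have hd3 : 2 * dist p q < ε := by
    have := hpq.trans_le ((min_le_right _ _).trans
      (div_le_div_of_nonneg_right (min_le_right η ε) (by norm_num)))
    linarith
  have hn : ∀ t, 0 < ‖wt p q t‖ := by
    intro t
    have h2 := wt_norm (q := q) hpS t
    have h3 := abs_le.mp h2
    linarith [h3.2]
  have hw0 : ∀ t, ‖wt p q t‖ ≠ 0 := fun t => (hn t).ne'
  have hs : ∀ t, ‖wt p q t‖⁻¹ • wt p q t ∈ S := by
    intro t
    rw [mem_S, norm_smul, norm_inv, norm_norm, inv_mul_cancel₀ (hw0 t)]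
  have hdist : ∀ t, dist (‖wt p q t‖⁻¹ • wt p q t) p ≤ 2 * dist p q := by
    intro t
    have h2 : dist (‖wt p q t‖⁻¹ • wt p q t) (wt p q t) ≤ dist p q := by
      rw [dist_eq_norm]
      have h3 : ‖wt p q t‖⁻¹ • wt p q t - wt p q t = (‖wt p q t‖⁻¹ - 1) • wt p q t := by
        rw [sub_smul, one_smul]
      rw [h3, norm_smul, Real.norm_eq_abs]
      have h4 : |‖wt p q t‖⁻¹ - 1| * ‖wt p q t‖ = |1 - ‖wt p q t‖| := by
        conv_lhs => rw [← abs_of_pos (hn t)]
        rw [← abs_mul, abs_of_pos (hn t), sub_mul, inv_mul_cancel₀ (hw0 t), one_mul]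
      rw [h4]
      exact wt_norm hpS t
    have h5 : dist (wt p q t) p ≤ dist p q := by
      rw [dist_eq_norm]
      exact wt_dist p q t
    have h6 := dist_triangle (‖wt p q t‖⁻¹ • wt p q t) (wt p q t) p
    linarith
  refine ⟨⟨fun t => ⟨‖wt p q t‖⁻¹ • wt p q t, hs t⟩, ?_⟩, ?_, ?_, ?_⟩
  · apply Continuous.subtype_mk
    exact ((wt_cont p q).norm.inv₀ hw0).smul (wt_cont p q)
  · have h2 : wt p q (stdSimplex.vertex 0) = p := by
      unfold wt
      have : ((stdSimplex.vertex 0 : Sx 1) 1 : ℝ) = 0 := by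
        rw [stdSimplex.vertex_coe]
        simp
      rw [this, zero_smul, add_zero]
    change ‖wt p q (stdSimplex.vertex 0)‖⁻¹ • wt p q (stdSimplex.vertex 0) = p
    rw [h2, mem_S.mp hpS, inv_one, one_smul]
  · have h2 : wt p q (stdSimplex.vertex 1) = q := by
      unfold wt
      have : ((stdSimplex.vertex 1 : Sx 1) 1 : ℝ) = 1 := by
        rw [stdSimplex.vertex_coe]
        simp
      rw [this, one_smul]
      abel
    change ‖wt p q (stdSimplex.vertex 1)‖⁻¹ • wt p q (stdSimplex.vertex 1) = q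
    rw [h2, mem_S.mp hqS, inv_one, one_smul]
  · intro t
    have h2 := hdist t
    refine ⟨?_, ?_⟩
    · apply (hOS ⟨‖wt p q t‖⁻¹ • wt p q t, hs t⟩).mp
      apply hthick
      rw [Metric.mem_thickening_iff]
      exact ⟨p, hp, h2.trans_lt hd2⟩
    · exact h2.trans_lt hd3

end T0

end TightRP
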