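import Pool.Agent.Lib.MP_7cdc3e_gt.T0.Spec

/-!
# MP_7cdc3e_gt, T0/CmU: complements of connected open sets
-/

set_option autoImplicit false

open HoloConj Pool.Agent.Lib.SingHom Module AS AS.R3

namespace TightRP

namespace T0

open Q (S3 mk mkC)

/-- the image of the complement of a symmetric closed set -/
private theorem img_open {A : Set E4} (hA : IsClosed A) (hs : ∀ x ∈ A, -x ∈ A) :
    IsOpen {q : RP3 | ∃ x : S3, mk x = q ∧ (x : E4) ∉ A} ∧
    ∀ x : S3, mk x ∈ {q : RP3 | ∃ x : S3, mk x = q ∧ (x : E4) ∉ A} ↔ (x : E4) ∉ A := by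
  have h1 : ∀ x : S3, mk x ∈ {q : RP3 | ∃ x : S3, mk x = q ∧ (x : E4) ∉ A} ↔ (x : E4) ∉ A := by
    intro x
    constructor
    · rintro ⟨y, hy, hyA⟩ hx
      rcases mk_eq.mp hy with h | h
      · rw [h] at hyA
        exact hyA hx
      · rw [h] at hyA
        exact hyA (hs _ hx)
    · intro hx
      exact ⟨x, rfl, hx⟩
  refine ⟨?_, h1⟩
  have h2 : Topology.IsQuotientMap mk := isQuotientMap_quotient_mk'
  rw [← h2.isOpen_preimage]
  have h3 : mk ⁻¹' {q : RP3 | ∃ x : S3, mk x = q ∧ (x : E4) ∉ A} =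
      Subtype.val ⁻¹' Aᶜ := by
    ext x
    exact h1 x
  rw [h3]
  exact hA.isOpen_compl.preimage continuous_subtype_val

/-- **CmU.** -/
theorem tCmU : S_CmU := by
  intro V hV hc A B hA hB hAi hBi hAB hI
  have hAs := ivS_Pm.mp hAi
  have hBs := ivS_Pm.mp hBi
  obtain ⟨hAo, hA1⟩ := img_open hA hAs
  obtain ⟨hBo, hB1⟩ := img_open hB hBs
  have hmemI : ∀ x : S3, ((x : E4) ∈ A ∧ (x : E4) ∈ B) ↔ mk x ∉ V := by
    intro x
    have h1 : (x : E4) ∈ A ∩ B ↔ (x : E4) ∈ S \ Ut V := by rw [hI]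
    rw [Set.mem_inter_iff, Set.mem_sdiff, mem_Ut] at h1
    rw [h1]
    exact ⟨fun h => h.2, fun h => ⟨x.2, h⟩⟩
  have hor : ∀ x : S3, (x : E4) ∈ A ∨ (x : E4) ∈ B := by
    intro x
    have h1 : (x : E4) ∈ A ∪ B := by rw [hAB]; exact x.2
    exact h1
  have hAS : A ⊆ S := by
    rw [← hAB]
    exact Set.subset_union_left
  have hBS : B ⊆ S := by
    rw [← hAB]
    exact Set.subset_union_right
  -- one of the two images does not meet `V`
  by_cases h1 : (V ∩ {q : RP3 | ∃ x : S3, mk x = q ∧ (x : E4) ∉ A}).Nonempty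
  · by_cases h2 : (V ∩ {q : RP3 | ∃ x : S3, mk x = q ∧ (x : E4) ∉ B}).Nonempty
    · exfalso
      obtain ⟨q, hq, hq1, hq2⟩ := hc _ _ hAo hBo (by
        intro q hq
        obtain ⟨x, rfl⟩ := mk_surj q
        by_cases hx : (x : E4) ∈ A
        · right
          rw [hB1]
          intro hxB
          exact (hmemI x).mp ⟨hx, hxB⟩ hq
        · left
          exact (hA1 x).mpr hx) h1 h2
      obtain ⟨x, rfl⟩ := mk_surj q
      rcases hor x with h | h
      · exact (hA1 x).mp hq1 h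
      · exact (hB1 x).mp hq2 h
    · -- `B = S`
      left
      have hB' : ∀ x : S3, (x : E4) ∈ B := by
        intro x
        by_cases hxV : mk x ∈ V
        · by_contra hx
          exact h2 ⟨mk x, hxV, (hB1 x).mpr hx⟩
        · exact ((hmemI x).mpr hxV).2
      rw [← hI]
      ext x
      exact ⟨fun hx => ⟨hx, hB' ⟨x, hAS hx⟩⟩, fun hx => hx.1⟩
  · right
    have hA' : ∀ x : S3, (x : E4) ∈ A := by
      intro x
      by_cases hxV : mk x ∈ V
      · by_contra hx
        exact h1 ⟨mk x, hxV, (hA1 x).mpr hx⟩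
      · exact ((hmemI x).mpr hxV).1
    rw [← hI]
    ext x
    exact ⟨fun hx => ⟨hA' ⟨x, hBS hx⟩, hx⟩, fun hx => hx.2⟩

end T0

end TightRP
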