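import Pool.Agent.Lib.MP_7cdc3e_gt.T0.Spec

/-!
# MP_7cdc3e_gt, T0/EvO: even open sets and `H_1` (helper20)
-/

set_option autoImplicit false

open HoloConj Pool.Agent.Lib.SingHom Module AS AS.R3

namespace TightRP

namespace T0

open Q (S3 mk mkC)

private theorem evo_mk_eq {x y : S3} (h : mk x = mk y) : x = y ∨ x = -y := by
  have h' : (x : EuclideanSpace ℝ (Fin 4)) = y ∨ (x : EuclideanSpace ℝ (Fin 4)) = -y :=
    Quotient.exact h
  rcases h' with h' | h'
  · exact Or.inl (Subtype.ext h')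
  · exact Or.inr (Subtype.ext h')

private theorem evo_mk_neg (x : S3) : mk (-x) = mk x :=
  Quotient.sound (s := antipodal) (Or.inr rfl)

private theorem evo_mk_surj : Function.Surjective mk := fun q => Quotient.exists_rep q

private theorem evo_neg_cont : Continuous (fun x : S3 => -x) := continuous_neg

private theorem evo_locpath : LocallyPathConnectedSpace S3 := by
  have : Fact (finrank ℝ (EuclideanSpace ℝ (Fin 4)) = 3 + 1) := ⟨by simp⟩
  exact ChartedSpace.locallyPathConnectedSpace (EuclideanSpace ℝ (Fin 3)) S3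

private theorem evo_sx0 (s t : Sx 0) : s = t := by
  apply Subtype.ext
  funext i
  have hs : ∑ j : Fin 1, (s : Fin 1 → ℝ) j = 1 := s.2.2
  have ht : ∑ j : Fin 1, (t : Fin 1 → ℝ) j = 1 := t.2.2
  rw [Fin.sum_univ_one] at hs ht
  have hi : i = (0 : Fin 1) := Subsingleton.elim (α := Fin 1) _ _
  rw [hi]
  exact hs.trans ht.symm

/-- a path from `x` to `-x` in `V` gives an odd loop -/
private theorem evo_odd (F : Type) [Field F] (hF : (2 : F) = 0) (h2 : Q.S_Odd) (U : Set RP3)
    (hz : ∀ z, Hmap F 1 (incl U) z = 0) (x : S3) (γ : Path x (-x))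
    (hγ : ∀ t, mk (γ t) ∈ U) : False := by
  have hmem : ∀ t : Sx 1, (t : Fin 2 → ℝ) 1 ∈ unitInterval := by
    intro t
    refine ⟨t.2.1 1, ?_⟩
    have h := t.2.2
    have h0 : 0 ≤ (t : Fin 2 → ℝ) 0 := t.2.1 0
    rw [Fin.sum_univ_two] at h
    show (t : Fin 2 → ℝ) 1 ≤ 1
    have h' : (t : Fin 2 → ℝ) 0 + (t : Fin 2 → ℝ) 1 = 1 := h
    linarith
  let τ : C(Sx 1, S3) := ⟨fun t => γ ⟨(t : Fin 2 → ℝ) 1, hmem t⟩, by
    apply γ.continuous.comp
    apply Continuous.subtype_mk
    exact (continuous_apply 1).comp continuous_subtype_val⟩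
  have hτ0 : τ (stdSimplex.vertex 0) = x := by
    show γ _ = x
    have : (⟨((stdSimplex.vertex (S := ℝ) (0 : Fin 2) : Sx 1) : Fin 2 → ℝ) 1, hmem _⟩ :
        unitInterval) = 0 := Subtype.ext (by simp [stdSimplex.vertex])
    rw [this]
    exact γ.source
  have hτ1 : τ (stdSimplex.vertex 1) = -x := by
    show γ _ = -x
    have : (⟨((stdSimplex.vertex (S := ℝ) (1 : Fin 2) : Sx 1) : Fin 2 → ℝ) 1, hmem _⟩ :
        unitInterval) = 1 := Subtype.ext (by simp [stdSimplex.vertex])
    rw [this]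
    exact γ.target
  let σ : C(Sx 1, U) := ⟨fun t => ⟨mk (τ t), hγ _⟩, by
    apply Continuous.subtype_mk
    exact mkC.continuous.comp τ.continuous⟩
  have hface : ∀ i : Fin 2, face i σ = ContinuousMap.const (Sx 0) ⟨mk x, by
      have := hγ 0
      rwa [γ.source] at this⟩ := by
    intro i
    ext t
    show mk (τ (smap i.succAbove t)) = mk x
    have ht : t = stdSimplex.vertex 0 := evo_sx0 _ _
    rw [ht]
    have hv : smap i.succAbove (stdSimplex.vertex (S := ℝ) (0 : Fin 1) : Sx 0) =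
        (stdSimplex.vertex (i.succAbove 0) : Sx 1) := stdSimplex.map_vertex _ _
    rw [hv]
    have hi : i = 0 ∨ i = 1 := by omega
    rcases hi with rfl | rfl
    · show mk (τ (stdSimplex.vertex 1)) = mk x
      rw [hτ1, evo_mk_neg]
    · show mk (τ (stdSimplex.vertex 0)) = mk x
      rw [hτ0]
  have hcyc : (Finsupp.single σ 1 : SC F U 1) ∈ Zc F U 1 := by
    rw [mem_Zc]
    show sbd F 0 (Finsupp.single σ 1) = 0
    rw [sbd_single, sbdv, Fin.sum_univ_two, hface 0, hface 1]
    simp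
  have hcls := hz (cls F U 1 ⟨_, hcyc⟩)
  rw [Hmap_cls, cls_eq_zero] at hcls
  have hcls' : IsBdry F 1 (smp F (incl U) 1 (Finsupp.single σ 1)) := hcls
  rw [smp_single] at hcls'
  have hcomp : (incl U).comp σ = mkC.comp τ := by
    ext t
    rfl
  rw [hcomp] at hcls'
  exact h2 F hF τ (by rw [hτ0, hτ1]) hcls'

/-- a connected open set without `H_1` is the bijective image of an open set -/
private theorem evo_comp (F : Type) [Field F] (hF : (2 : F) = 0) (h1 : Q.S_Cov) (h2 : Q.S_Odd)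
    (U : Set RP3) (hU : IsOpen U) (hUc : IsPreconnected U)
    (hz : ∀ z, Hmap F 1 (incl U) z = 0) :
    ∃ A : Set S3, IsOpen A ∧ (∀ y ∈ A, -y ∉ A) ∧ U ⊆ mk '' A := by
  have hlp := evo_locpath
  rcases U.eq_empty_or_nonempty with rfl | ⟨u₀, hu₀⟩
  · exact ⟨∅, isOpen_empty, fun y hy => hy.elim, fun u hu => hu.elim⟩
  obtain ⟨x₀, hx₀⟩ := evo_mk_surj u₀
  let V : Set S3 := mk ⁻¹' U
  have hV : IsOpen V := hU.preimage mkC.continuous
  have hnegV : ∀ x, x ∈ V → -x ∈ V := by
    intro x hx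
    show mk (-x) ∈ U
    rw [evo_mk_neg]
    exact hx
  -- no component contains antipodal points
  have hodd : ∀ x ∈ V, -x ∉ connectedComponentIn V x := by
    intro x hx hmem
    have hop : IsOpen (connectedComponentIn V x) := hV.connectedComponentIn
    have hcon : IsConnected (connectedComponentIn V x) :=
      ⟨⟨x, mem_connectedComponentIn hx⟩, isPreconnected_connectedComponentIn⟩
    have hpc : IsPathConnected (connectedComponentIn V x) :=
      hop.isConnected_iff_isPathConnected.1 hcon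
    obtain ⟨γ, hγ⟩ := hpc.joinedIn x (mem_connectedComponentIn hx) (-x) hmem
    exact evo_odd F hF h2 U hz x γ (fun t => connectedComponentIn_subset V x (hγ t))
  let A : Set S3 := connectedComponentIn V x₀
  have hx₀V : x₀ ∈ V := by
    show mk x₀ ∈ U
    rw [hx₀]
    exact hu₀
  have hAV : A ⊆ V := connectedComponentIn_subset V x₀
  have hAo : IsOpen A := hV.connectedComponentIn
  have hAneg : ∀ y ∈ A, -y ∉ A := by
    intro y hy hy'
    have he : connectedComponentIn V x₀ = connectedComponentIn V y := connectedComponentIn_eq hy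
    exact hodd y (hAV hy) (he ▸ hy')
  have hop : IsOpenMap mk := h1.1.isLocalHomeomorph.isOpenMap
  have hVA : IsOpen (V \ A) := by
    rw [isOpen_iff_mem_nhds]
    intro y hy
    refine Filter.mem_of_superset (hV.connectedComponentIn.mem_nhds (mem_connectedComponentIn hy.1)) ?_
    intro w hw
    refine ⟨connectedComponentIn_subset V y hw, fun hwA => hy.2 ?_⟩
    have he : connectedComponentIn V x₀ = connectedComponentIn V w := connectedComponentIn_eq hwA
    have he' : connectedComponentIn V y = connectedComponentIn V w := connectedComponentIn_eq hw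
    show y ∈ connectedComponentIn V x₀
    rw [he, ← he']
    exact mem_connectedComponentIn hy.1
  let V₂ : Set S3 := (V \ A) ∩ (fun x : S3 => -x) ⁻¹' (V \ A)
  have hV₂ : IsOpen V₂ := hVA.inter (hVA.preimage evo_neg_cont)
  have hcover : U ⊆ mk '' A ∪ mk '' V₂ := by
    intro u hu
    obtain ⟨y, rfl⟩ := evo_mk_surj u
    by_cases hyA : y ∈ A
    · exact Or.inl ⟨y, hyA, rfl⟩
    · by_cases hyA' : -y ∈ A
      · exact Or.inl ⟨-y, hyA', evo_mk_neg y⟩
      · exact Or.inr ⟨y, ⟨⟨hu, hyA⟩, ⟨hnegV y hu, hyA'⟩⟩, rfl⟩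
  have hdisj : U ∩ (mk '' A ∩ mk '' V₂) = ∅ := by
    rw [Set.eq_empty_iff_forall_notMem]
    rintro u ⟨-, ⟨a, ha, rfl⟩, ⟨y, hy, hya⟩⟩
    rcases evo_mk_eq hya with h | h
    · rw [h] at hy
      exact hy.1.2 ha
    · have hy' : -y ∈ V \ A := hy.2
      rw [h, neg_neg] at hy'
      exact hy'.2 ha
  have hUA : U ⊆ mk '' A := by
    by_contra hcon
    obtain ⟨u, hu, huA⟩ := Set.not_subset.1 hcon
    have h1' : (U ∩ mk '' A).Nonempty := ⟨u₀, hu₀, x₀, mem_connectedComponentIn hx₀V, hx₀⟩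
    have h2' : (U ∩ mk '' V₂).Nonempty := ⟨u, hu, (hcover hu).resolve_left huA⟩
    have h3' := hUc (mk '' A) (mk '' V₂) (hop A hAo) (hop V₂ hV₂) hcover h1' h2'
    rw [hdisj] at h3'
    exact Set.not_nonempty_empty h3'
  exact ⟨A, hAo, hAneg, hUA⟩

/-- the section over the image of an open set without antipodal points -/
private theorem evo_sec (h1 : Q.S_Cov) (U : Set RP3) (A : Set S3) (hAo : IsOpen A)
    (hAneg : ∀ y ∈ A, -y ∉ A) (hUA : U ⊆ mk '' A) : ∃ j : C(U, S3), ∀ u, mk (j u) = (u : RP3) := by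
  have hop : IsOpenMap mk := h1.1.isLocalHomeomorph.isOpenMap
  choose j hjA hj using hUA
  have huniq : ∀ (u : RP3) (hu : u ∈ U) (a : S3), a ∈ A → mk a = u → a = j hu := by
    intro u hu a ha hau
    rcases evo_mk_eq (hau.trans (hj hu).symm) with h | h
    · exact h
    · exfalso
      rw [h] at ha
      exact hAneg _ (hjA hu) ha
  refine ⟨⟨fun u => j u.2, ?_⟩, fun u => hj u.2⟩
  rw [continuous_def]
  intro O hO
  have he : (fun u : U => j u.2) ⁻¹' O = Subtype.val ⁻¹' (mk '' (A ∩ O)) := by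
    ext u
    constructor
    · intro hu
      exact ⟨j u.2, ⟨hjA u.2, hu⟩, hj u.2⟩
    · rintro ⟨a, ⟨haA, haO⟩, hau⟩
      show j u.2 ∈ O
      rw [← huniq u u.2 a haA hau]
      exact haO
  rw [he]
  exact (hop _ (hAo.inter hO)).preimage continuous_subtype_val

theorem tEvO (h1 : Q.S_Cov) (h2 : Q.S_Sph) (h3 : Q.S_Odd) : S_EvO := by
  intro F _ hF V hV hVc hinj
  constructor
  · rintro ⟨W, hW, hWV⟩
    have hA : IsOpen {x : S3 | mk x ∈ V ∧ (x : E4) ∈ W} :=
      (hV.preimage mkC.continuous).inter (hW.preimage continuous_subtype_val)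
    obtain ⟨j, hj⟩ := evo_sec h1 V {x : S3 | mk x ∈ V ∧ (x : E4) ∈ W} hA
      (fun y hy hy' => (hWV (y : E4) ⟨y.2, hy.1⟩).mp hy.2 hy'.2)
      (fun u hu => by
        obtain ⟨y, rfl⟩ := evo_mk_surj u
        have h4 := hWV (y : E4) ⟨y.2, hu⟩
        by_cases hy : (y : E4) ∈ W
        · exact ⟨y, ⟨hu, hy⟩, rfl⟩
        · have h5 : -(y : E4) ∈ W := by
            by_contra h5
            exact hy (h4.mpr h5)
          refine ⟨-y, ⟨?_, h5⟩, evo_mk_neg y⟩
          rw [evo_mk_neg]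
          exact hu)
    have hc : incl V = mkC.comp j := by
      ext u
      exact (hj u).symm
    have hz : ∀ z, Hmap F 1 (incl V) z = 0 := by
      intro z
      rw [hc, Hmap_comp_apply]
      have hs := (h2 F).1
      have h0 : Hmap F 1 j z = 0 := Subsingleton.elim _ _
      rw [h0, map_zero]
    refine ⟨fun z z' => hinj ?_⟩
    rw [hz, hz]
  · intro hs
    have hz : ∀ z, Hmap F 1 (incl V) z = 0 := by
      intro z
      have h0 : z = 0 := Subsingleton.elim _ _
      rw [h0, map_zero]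
    obtain ⟨A, hAo, hAneg, hVA⟩ := evo_comp F hF h1 h3 V hV hVc hz
    obtain ⟨W, hW, hWA⟩ := isOpen_induced_iff.mp hAo
    have hmem : ∀ y : S3, (y : E4) ∈ W ↔ y ∈ A := by
      intro y
      rw [← hWA]
      rfl
    refine ⟨W, hW, ?_⟩
    rintro y ⟨hyS, hyV⟩
    have h4 : y ∈ W ↔ (⟨y, hyS⟩ : S3) ∈ A := hmem ⟨y, hyS⟩
    have h5 : -y ∈ W ↔ -(⟨y, hyS⟩ : S3) ∈ A := hmem (-(⟨y, hyS⟩ : S3))
    rw [h4, h5]
    constructor
    · exact hAneg _
    · intro h6
      obtain ⟨a, ha, hay⟩ := hVA hyV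
      rcases evo_mk_eq hay with h | h
      · rwa [← h]
      · exact (h6 (h ▸ ha)).elim

end T0

end TightRP
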