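import Pool.Agent.Lib.MP_7cdc3e_gt.T0.Spec

/-!
# MP_7cdc3e_gt, T0/F0: classes of degree zero
-/

set_option autoImplicit false

open HoloConj Pool.Agent.Lib.SingHom Module AS AS.R3

namespace TightRP

namespace T0

open Q (S3 mk mkC)

/-- the value of an invariant cochain at a point of projective space -/
private noncomputable def fz (φ : List E4 → ZMod 2) (q : RP3) : ZMod 2 :=
  φ [((mk_surj q).choose : E4)]

private theorem fz_mk {φ : List E4 → ZMod 2} (hφ : Iv (Pm E4) φ) (x : S3) :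
    fz φ (mk x) = φ [(x : E4)] := by
  unfold fz
  have h1 := (mk_surj (mk x)).choose_spec
  rcases mk_eq.mp h1 with h | h
  · rw [h]
  · rw [h]
    exact iv_Pm.mp hφ [(x : E4)]

private theorem fz_open {U : Set RP3} {C : Set E4} {φ : List E4 → ZMod 2}
    (hφ : Iv (Pm E4) φ) (hU : IsOpen U) (hC : Ut U ⊆ C) {ε : ℝ} (hε : 0 < ε)
    (h : ∀ p ∈ C, ∀ q ∈ C, dist p q < ε → φ [p] = φ [q]) (A : Set (ZMod 2)) :
    IsOpen {q | q ∈ U ∧ fz φ q ∈ A} := by
  have h1 : IsOpen (mk ⁻¹' {q | q ∈ U ∧ fz φ q ∈ A}) := by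
    rw [isOpen_iff_mem_nhds]
    rintro x ⟨hx, hxA⟩
    have h2 : mk ⁻¹' U ∈ nhds x := (hU.preimage mkC.continuous).mem_nhds hx
    filter_upwards [h2, Metric.ball_mem_nhds x hε] with y hy hyx
    refine ⟨hy, ?_⟩
    rw [fz_mk hφ] at hxA ⊢
    rw [h y (hC ((mem_Ut y).mpr hy)) x (hC ((mem_Ut x).mpr hx)) hyx]
    exact hxA
  exact isOpen_coinduced.mpr h1

private theorem fz_const {U : Set RP3} {C : Set E4} {φ : List E4 → ZMod 2}
    (hφ : Iv (Pm E4) φ) (hU : IsOpen U) (hU' : IsPreconnected U) (hC : Ut U ⊆ C) {ε : ℝ}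
    (hε : 0 < ε) (h : ∀ p ∈ C, ∀ q ∈ C, dist p q < ε → φ [p] = φ [q]) {p q : E4}
    (hp : p ∈ Ut U) (hq : q ∈ Ut U) : φ [p] = φ [q] := by
  by_contra hne
  obtain ⟨hpS, hpU⟩ := hp
  obtain ⟨hqS, hqU⟩ := hq
  obtain ⟨z, -, hz1, hz2⟩ := hU' {r | r ∈ U ∧ fz φ r ∈ ({φ [p]} : Set (ZMod 2))}
    {r | r ∈ U ∧ fz φ r ∈ ({φ [p]}ᶜ : Set (ZMod 2))} (fz_open hφ hU hC hε h _)
    (fz_open hφ hU hC hε h _) (fun r hr => by
      by_cases h1 : fz φ r ∈ ({φ [p]} : Set (ZMod 2))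
      · exact Or.inl ⟨hr, h1⟩
      · exact Or.inr ⟨hr, h1⟩)
    ⟨mk ⟨p, hpS⟩, hpU, hpU, by rw [fz_mk hφ]; rfl⟩
    ⟨mk ⟨q, hqS⟩, hqU, hqU, by
      rw [fz_mk hφ]
      exact fun h1 => hne h1.symm⟩
  exact hz2.2 hz1.2

/-- **F0.** -/
theorem tF0 : S_F0 := by
  intro U X C hU hU' _ hX hC hXC h0 y
  obtain ⟨φ, hφ, rfl⟩ := cl_surj y
  obtain ⟨hi, -, ε, hε, hd⟩ := id hφ
  have h1 : ∀ p ∈ C, ∀ q ∈ C, dist p q < ε → φ [p] = φ [q] := by
    intro p hp q hq hpq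
    have h2 := hd [p, q] rfl ⟨?_, ?_⟩
    · simp only [dd, add_zero] at h2
      have h3 : ∀ a b : ZMod 2, a + b = 0 → b = a := by decide
      exact h3 _ _ h2
    · intro x hx
      simp only [List.mem_cons, List.not_mem_nil, or_false] at hx
      rcases hx with rfl | rfl
      · exact hp
      · exact hq
    · intro x hx y hy
      simp only [List.mem_cons, List.not_mem_nil, or_false] at hx hy
      rcases hx with rfl | rfl <;> rcases hy with rfl | rfl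
      · rw [dist_self]
        exact hε
      · exact hpq
      · rw [dist_comm]
        exact hpq
      · rw [dist_self]
        exact hε
  rw [res_cl]
  by_cases h2 : ∀ p ∈ X, φ [p] = 0
  · left
    rw [cl_eq_zero, mem_Bnd_zero]
    refine ⟨hi, 1, one_pos, fun l hl hs => ?_⟩
    obtain ⟨x, rfl⟩ := List.length_eq_one_iff.mp hl
    exact h2 x (hs.1 x List.mem_cons_self)
  · right
    push Not at h2
    obtain ⟨p, hp, hp1⟩ := h2
    have h3 : ∀ c : ZMod 2, c ≠ 0 → c = 1 := by decide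
    unfold ap
    rw [cl_eq_cl, mem_Bnd_zero]
    refine ⟨hi.add (apc_iv 0), 1, one_pos, fun l hl hs => ?_⟩
    obtain ⟨x, rfl⟩ := List.length_eq_one_iff.mp hl
    have hx : x ∈ X := hs.1 x List.mem_cons_self
    have h4 : (0 : E4) ∉ [x] := by
      intro h
      rw [List.mem_singleton] at h
      exact h0 (h ▸ hx)
    have h5 : apc 0 [x] = 1 := apc_pos (k := 0) rfl h4
    rw [Pi.add_apply, h5, fz_const hi hU hU' hC hε h1 (hX hx) (hX hp), h3 _ hp1]
    exact z2_add_self 1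

end T0

end TightRP
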