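import Pool.Agent.Lib.MP_7cdc3e_gt.T0.Spec

/-!
# MP_7cdc3e_gt, part T0, module F1: degree one, restrictions are `0` or `a`
-/

set_option autoImplicit false

open HoloConj Pool.Agent.Lib.SingHom Module AS AS.R3

namespace TightRP

namespace T0

open Q (S3 mk mkC)

private theorem f1_locpath : LocallyPathConnectedSpace RP3 := by
  have : Fact (finrank ℝ (EuclideanSpace ℝ (Fin 4)) = 3 + 1) := ⟨by simp⟩
  have h : LocallyPathConnectedSpace S3 :=
    ChartedSpace.locallyPathConnectedSpace (EuclideanSpace ℝ (Fin 3)) S3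
  exact inferInstanceAs (LocallyPathConnectedSpace (Quotient antipodal))

/-- a path as a singular one-simplex -/
private theorem f1_path {Y : Type} [TopologicalSpace Y] {a b : Y} (γ : Path a b) :
    ∃ σ : C(Sx 1, Y), σ (stdSimplex.vertex 0) = a ∧ σ (stdSimplex.vertex 1) = b ∧
      ∀ t, ∃ s, σ t = γ s := by
  have hmem : ∀ t : Sx 1, (t : Fin 2 → ℝ) 1 ∈ unitInterval := by
    intro t
    refine ⟨t.2.1 1, ?_⟩
    have h := t.2.2
    have h0 : 0 ≤ (t : Fin 2 → ℝ) 0 := t.2.1 0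
    rw [Fin.sum_univ_two] at h
    show (t : Fin 2 → ℝ) 1 ≤ 1
    have h' : (t : Fin 2 → ℝ) 0 + (t : Fin 2 → ℝ) 1 = 1 := h
    linarith
  refine ⟨⟨fun t => γ ⟨(t : Fin 2 → ℝ) 1, hmem t⟩, ?_⟩, ?_, ?_, fun t => ⟨_, rfl⟩⟩
  · apply γ.continuous.comp
    apply Continuous.subtype_mk
    exact (continuous_apply 1).comp continuous_subtype_val
  · show γ _ = a
    have : (⟨((stdSimplex.vertex (S := ℝ) (0 : Fin 2) : Sx 1) : Fin 2 → ℝ) 1, hmem _⟩ :
        unitInterval) = 0 := Subtype.ext (by simp [stdSimplex.vertex])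
    rw [this]
    exact γ.source
  · show γ _ = b
    have : (⟨((stdSimplex.vertex (S := ℝ) (1 : Fin 2) : Sx 1) : Fin 2 → ℝ) 1, hmem _⟩ :
        unitInterval) = 1 := Subtype.ext (by simp [stdSimplex.vertex])
    rw [this]
    exact γ.target

private theorem f1_sx0 (s t : Sx 0) : s = t := by
  apply Subtype.ext
  funext i
  have hs : ∑ j : Fin 1, (s : Fin 1 → ℝ) j = 1 := s.2.2
  have ht : ∑ j : Fin 1, (t : Fin 1 → ℝ) j = 1 := t.2.2
  rw [Fin.sum_univ_one] at hs ht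
  have hi : i = (0 : Fin 1) := Subsingleton.elim (α := Fin 1) _ _
  rw [hi]
  exact hs.trans ht.symm

private theorem f1_face {Y : Type} [TopologicalSpace Y] (σ : C(Sx 1, Y)) (i : Fin 2) :
    face i σ = ContinuousMap.const (Sx 0) (σ (stdSimplex.vertex (i.succAbove 0))) := by
  ext t
  show σ (smap i.succAbove t) = σ (stdSimplex.vertex (i.succAbove 0))
  have ht : t = stdSimplex.vertex 0 := f1_sx0 _ _
  rw [ht]
  have hv : smap i.succAbove (stdSimplex.vertex (S := ℝ) (0 : Fin 1) : Sx 0) =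
      (stdSimplex.vertex (i.succAbove 0) : Sx 1) := stdSimplex.map_vertex _ _
  rw [hv]

/-- the boundary of a singular one-simplex -/
private theorem f1_sbd (F : Type) [Field F] {Y : Type} [TopologicalSpace Y] (σ : C(Sx 1, Y)) :
    sbd F 0 (Finsupp.single σ 1) =
      Finsupp.single (ContinuousMap.const (Sx 0) (σ (stdSimplex.vertex 1))) 1 -
      Finsupp.single (ContinuousMap.const (Sx 0) (σ (stdSimplex.vertex 0))) 1 := by
  have e0 : (0 : Fin 2).succAbove 0 = 1 := rfl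
  have e1 : (1 : Fin 2).succAbove 0 = 0 := rfl
  rw [sbd_single, sbdv, Fin.sum_univ_two, f1_face σ 0, f1_face σ 1, e0, e1]
  simp [sub_eq_add_neg]

private theorem f1_dd3 (φ : List E4 → ZMod 2) (a b c : E4) :
    AS.dd φ [a, b, c] = φ [b, c] + (φ [a, c] + φ [a, b]) := by
  simp [AS.dd]

private theorem f1_sml {C : Set E4} {ε : ℝ} (hε : 0 < ε) {p a b : E4} (hp : p ∈ C) (ha : a ∈ C)
    (hb : b ∈ C) (h1 : dist a p < ε / 2) (h2 : dist b p < ε / 2) : Sml C ε [p, a, b] := by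
  have key : ∀ x ∈ [p, a, b], x ∈ C ∧ dist x p < ε / 2 := by
    intro x hx
    rw [List.mem_cons, List.mem_cons, List.mem_singleton] at hx
    rcases hx with rfl | rfl | rfl
    · exact ⟨hp, by rw [dist_self]; positivity⟩
    · exact ⟨ha, h1⟩
    · exact ⟨hb, h2⟩
  refine ⟨fun x hx => (key x hx).1, fun x hx y hy => ?_⟩
  have e1 := (key x hx).2
  have e2 := (key y hy).2
  have e3 := dist_triangle_right x y p
  linarith

/-- the point of projective space -/
private def f1_pt {U : Set RP3} (p : E4) (hp : p ∈ Ut U) : U := ⟨mk ⟨p, hp.1⟩, hp.2⟩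

theorem tF1 (h1 : S_Pot) (h2 : S_Tht) (h3 : S_Krn) (h4 : S_Arc) (h5 : Q.S_Cov) : S_F1 := by
  classical
  intro F _ hF U X C hU hUc hinj hC hX hXU hUC hXC h0 y
  rcases U.eq_empty_or_nonempty with rfl | ⟨b, hb⟩
  · left
    have hXe : X = ∅ := by
      rw [Set.eq_empty_iff_forall_notMem]
      intro x hx
      exact (hXU hx).2
    exact H_empty hXe _
  obtain ⟨φ, hφ, rfl⟩ := cl_surj y
  have hφi := hφ.1
  obtain ⟨ε, hε, hφd⟩ := hφ.2.2
  have h01 : ∀ c : ZMod 2, c = 0 ∨ c = 1 := by decide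
  have h20 : (2 : ZMod 2) = 0 := by decide
  have hnegF : ∀ x : F, -x = x := by
    intro x
    have : x + x = 0 := by
      rw [← two_mul, hF, zero_mul]
    exact neg_eq_of_add_eq_zero_left this
  obtain ⟨θ, hθb, hθ⟩ := h2 F hF U C φ hφ hUC
  have haac : (aac : List E4 → ZMod 2) ∈ Cyc (Pm E4) ∅ 1 C := aac_cyc hC.zero ∅ (Set.inter_empty C)
  obtain ⟨θa, hab, hθa⟩ := h2 F hF U C aac haac hUC
  have hne0 : ∀ x : S3, (x : E4) ≠ 0 := by
    intro x hx
    have := x.2
    rw [hx] at this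
    exact zero_notMem_S this
  have sgpot : ∀ (n : ℕ) (τ : C(Sx n, S3)), IsPot aac τ (fun t => sg (τ t : E4)) :=
    fun n τ => ⟨1, one_pos, fun a b _ => aac_pair (hne0 _) (hne0 _)⟩
  have fact : ∀ z : SC F U 1, IsCyc F 1 z → θa z = 0 → θ z = 0 := by
    intro z hz hz0
    obtain ⟨y, rfl⟩ := h3 F hF U hinj θa (fun σ τ hτ => hθa σ τ hτ _ (sgpot 1 τ)) z hz hz0
    exact hθb y
  have hlp := f1_locpath
  have hpc : IsPathConnected U := hU.isConnected_iff_isPathConnected.1 ⟨⟨b, hb⟩, hUc⟩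
  have hσ : ∀ u : U, ∃ (σ : C(Sx 1, U)) (i j : ZMod 2),
      σ (stdSimplex.vertex 0) = ⟨b, hb⟩ ∧ σ (stdSimplex.vertex 1) = u ∧
      θ (Finsupp.single σ 1) = zc F i ∧ θa (Finsupp.single σ 1) = zc F j := by
    intro u
    obtain ⟨γ, hγ⟩ := hpc.joinedIn b hb u u.2
    obtain ⟨σ', s0, s1, st⟩ := f1_path γ
    have hσU : ∀ t, σ' t ∈ U := by
      intro t
      obtain ⟨s, hs⟩ := st t
      rw [hs]
      exact hγ s
    let σ : C(Sx 1, U) := ⟨fun t => ⟨σ' t, hσU t⟩, σ'.continuous.subtype_mk _⟩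
    obtain ⟨τ, hτ⟩ := h5.2.1 1 σ'
    have hτC : ∀ t, (τ t : E4) ∈ C := fun t => hUC ((mem_Ut (τ t)).mpr (by
      rw [hτ t]
      exact hσU t))
    obtain ⟨ψ, hψ⟩ := h1.1 C φ hφ 1 τ hτC
    exact ⟨σ, _, _, Subtype.ext s0, Subtype.ext s1, hθ σ τ hτ ψ hψ,
      hθa σ τ hτ _ (sgpot 1 τ)⟩
  choose σ I J hσ0 hσ1 hσI hσJ using hσ
  obtain ⟨δ, hδ, harc⟩ := h4 U X (ε / 2) hU hX.cpt hXU (by positivity)
  have hpp : ∀ p ∈ X, φ [p, p] = 0 := by
    intro p hp
    have e1 := hφd [p, p, p] rfl (f1_sml hε (hXC hp) (hXC hp) (hXC hp)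
      (by rw [dist_self]; positivity) (by rw [dist_self]; positivity))
    rw [f1_dd3, z2_add_self, add_zero] at e1
    exact e1
  -- the cycles
  have key : ∀ p (hp : p ∈ X) q (hq : q ∈ X), dist p q < δ → ∃ z : SC F U 1, IsCyc F 1 z ∧
      θ z = zc F (I (f1_pt p (hXU hp)) + φ [p, q] + I (f1_pt q (hXU hq))) ∧
      θa z = zc F (J (f1_pt p (hXU hp)) + (sg p + sg q) + J (f1_pt q (hXU hq))) := by
    intro p hp q hq hpq
    obtain ⟨s, s0, s1, hs⟩ := harc p hp q hq hpq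
    let τ : C(Sx 1, U) := ⟨fun t => ⟨mk (s t), (hs t).1⟩,
      (mkC.continuous.comp s.continuous).subtype_mk _⟩
    have hpot : IsPot φ s (fun t => φ [p, (s t : E4)]) := by
      refine ⟨1, one_pos, fun t t' _ => ?_⟩
      have e1 := hφd [p, (s t : E4), (s t' : E4)] rfl (f1_sml hε (hXC hp)
        (hUC ((mem_Ut (s t)).mpr (hs t).1)) (hUC ((mem_Ut (s t')).mpr (hs t').1))
        (hs t).2 (hs t').2)
      rw [f1_dd3] at e1
      linear_combination e1 - (φ [p, (s t : E4)] + φ [p, (s t' : E4)]) * h20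
    have e1 := hθ τ s (fun t => rfl) _ hpot
    have e2 := hθa τ s (fun t => rfl) _ (sgpot 1 s)
    simp only [s0, s1] at e1 e2
    rw [hpp p hp, zero_add] at e1
    have t0 : τ (stdSimplex.vertex 0) = f1_pt p (hXU hp) := by
      apply Subtype.ext
      show mk (s (stdSimplex.vertex 0)) = mk ⟨p, (hXU hp).1⟩
      congr 1
      exact Subtype.ext s0
    have t1 : τ (stdSimplex.vertex 1) = f1_pt q (hXU hq) := by
      apply Subtype.ext
      show mk (s (stdSimplex.vertex 1)) = mk ⟨q, (hXU hq).1⟩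
      congr 1
      exact Subtype.ext s1
    refine ⟨Finsupp.single (σ (f1_pt p (hXU hp))) 1 + Finsupp.single τ 1 -
      Finsupp.single (σ (f1_pt q (hXU hq))) 1, ?_, ?_, ?_⟩
    · show sbd F 0 _ = 0
      rw [map_sub, map_add, f1_sbd, f1_sbd, f1_sbd, hσ0, hσ1, hσ0, hσ1, t0, t1]
      abel
    · rw [map_sub, map_add, hσI, hσI, e1, sub_eq_add_neg, hnegF, ← zc_add hF, ← zc_add hF]
    · rw [map_sub, map_add, hσJ, hσJ, e2, sub_eq_add_neg, hnegF, ← zc_add hF, ← zc_add hF]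
  -- the constant
  obtain ⟨c, hc⟩ : ∃ c : ZMod 2, ∀ p (hp : p ∈ X) q (hq : q ∈ X), dist p q < δ →
      I (f1_pt p (hXU hp)) + φ [p, q] + I (f1_pt q (hXU hq)) =
        c * (J (f1_pt p (hXU hp)) + (sg p + sg q) + J (f1_pt q (hXU hq))) := by
    by_cases hall : ∀ p (hp : p ∈ X) q (hq : q ∈ X), dist p q < δ →
        J (f1_pt p (hXU hp)) + (sg p + sg q) + J (f1_pt q (hXU hq)) = 0
    · refine ⟨0, fun p hp q hq hd => ?_⟩
      obtain ⟨z, z1, z2, z3⟩ := key p hp q hq hd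
      rw [hall p hp q hq hd, zc_zero] at z3
      have hz := fact z z1 z3
      rw [z2] at hz
      rw [zc_inj (hz.trans (zc_zero F).symm), zero_mul]
    · push Not at hall
      obtain ⟨p0, hp0, q0, hq0, hd0, hne⟩ := hall
      obtain ⟨z0, y1, y2, y3⟩ := key p0 hp0 q0 hq0 hd0
      have hA0 := (h01 _).resolve_left hne
      refine ⟨I (f1_pt p0 (hXU hp0)) + φ [p0, q0] + I (f1_pt q0 (hXU hq0)),
        fun p hp q hq hd => ?_⟩
      obtain ⟨z, z1, z2, z3⟩ := key p hp q hq hd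
      rcases h01 (J (f1_pt p (hXU hp)) + (sg p + sg q) + J (f1_pt q (hXU hq))) with hA | hA
      · rw [hA, zc_zero] at z3
        have hz := fact z z1 z3
        rw [z2] at hz
        rw [zc_inj (hz.trans (zc_zero F).symm), hA, mul_zero]
      · rw [hA, mul_one]
        have hz : IsCyc F 1 (z - z0) := by
          have z1' : sbd F 0 z = 0 := z1
          have y1' : sbd F 0 z0 = 0 := y1
          show sbd F 0 (z - z0) = 0
          rw [map_sub, z1', y1', sub_zero]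
        have ht : θa (z - z0) = 0 := by
          rw [map_sub, z3, y3, hA, hA0, sub_self]
        have hf := fact _ hz ht
        rw [map_sub, z2, y2, sub_eq_zero] at hf
        exact zc_inj hf
  -- the function on points
  let Ψ : List E4 → ZMod 2 := fun l => match l with
    | [p] => if h : p ∈ Ut U then I (f1_pt p h) + c * J (f1_pt p h) else 0
    | _ => 0
  have hΨ : ∀ p (hp : p ∈ X), Ψ [p] =
      I (f1_pt p (hXU hp)) + c * J (f1_pt p (hXU hp)) := fun p hp => dif_pos (hXU hp)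
  have hΨi : Iv (Pm E4) Ψ := by
    rw [iv_Pm]
    rintro (_ | ⟨p, _ | ⟨q, l⟩⟩)
    · rfl
    · change (if h : -p ∈ Ut U then I (f1_pt (-p) h) + c * J (f1_pt (-p) h) else 0) =
        if h : p ∈ Ut U then I (f1_pt p h) + c * J (f1_pt p h) else 0
      by_cases h : p ∈ Ut U
      · have h' : -p ∈ Ut U := Ut_neg h
        rw [dif_pos h, dif_pos h']
        have hpt : f1_pt (-p) h' = f1_pt p h := Subtype.ext (mk_eq.mpr (Or.inr rfl))
        rw [hpt]
      · have h' : -p ∉ Ut U := fun h' => h (by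
          have := Ut_neg h'
          rwa [neg_neg] at this)
        rw [dif_neg h, dif_neg h']
    · rfl
  have main : ∀ p (hp : p ∈ X) q (hq : q ∈ X), dist p q < δ →
      φ [p, q] = c * (sg p + sg q) + Ψ [p] + Ψ [q] := by
    intro p hp q hq hd
    rw [hΨ p hp, hΨ q hq]
    have e1 := hc p hp q hq hd
    linear_combination e1 - (I (f1_pt p (hXU hp)) + I (f1_pt q (hXU hq))) * h20
  have hdd : ∀ p q : E4, AS.dd Ψ [p, q] = Ψ [q] + Ψ [p] := by
    intro p q
    rw [dd_cons, dd_cons, dd_nil, add_zero]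
  rcases h01 c with rfl | rfl
  · left
    rw [res_cl, cl_eq_zero]
    refine mem_Bnd_succ.mpr ⟨hφi, Ψ, hΨi, Z0.empty 0 (Set.inter_empty X) Ψ, δ, hδ, ?_⟩
    intro l hl hs
    obtain ⟨p, q, rfl⟩ := List.length_eq_two.mp hl
    have e1 := main p (hs.1 p (by simp)) q (hs.1 q (by simp)) (hs.2 p (by simp) q (by simp))
    rw [Pi.add_apply, hdd, e1]
    linear_combination (Ψ [p] + Ψ [q]) * h20
  · right
    unfold ap
    rw [res_cl, cl_eq_cl]
    refine mem_Bnd_succ.mpr ⟨hφi.add (apc_iv 1), Ψ, hΨi, Z0.empty 0 (Set.inter_empty X) Ψ, δ, hδ,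
      ?_⟩
    intro l hl hs
    obtain ⟨p, q, rfl⟩ := List.length_eq_two.mp hl
    have hp := hs.1 p (by simp)
    have hq := hs.1 q (by simp)
    have e1 := main p hp q hq (hs.2 p (by simp) q (by simp))
    have hp0 : p ≠ 0 := fun h => h0 (h ▸ hp)
    have hq0 : q ≠ 0 := fun h => h0 (h ▸ hq)
    rw [Pi.add_apply, Pi.add_apply, hdd, e1, apc_one, aac_pair hp0 hq0]
    linear_combination (Ψ [p] + Ψ [q] + sg p + sg q) * h20

end T0

end TightRP
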