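import Pool.Agent.Lib.MP_7cdc3e_gt.T0.Spec

/-!
# MP_7cdc3e_gt, T0/Krn: one-cycles on which the class of the double covering vanishes
-/

set_option autoImplicit false

open HoloConj Pool.Agent.Lib.SingHom Module AS AS.R3

namespace TightRP

namespace T0

open Q (S3 mk mkC)

private theorem krn_ne (x : S3) : (x : E4) ≠ 0 := fun h => zero_notMem_S (h ▸ x.2)

private theorem krn_smap_vertex {m n : ℕ} (f : Fin m → Fin n) (i : Fin m) :
    (smap f) (stdSimplex.vertex i) = (stdSimplex.vertex (f i) : stdSimplex ℝ (Fin n)) := by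
  rw [smap_eq_aff]
  exact aff_vertex _ i

/-! ### the half great circle -/

private noncomputable def krnFun (s : ℝ) : E4 :=
  WithLp.toLp 2 ![Real.cos (Real.pi * s), Real.sin (Real.pi * s), 0, 0]

private theorem krnFun_norm (s : ℝ) : krnFun s ∈ S := by
  rw [mem_S, EuclideanSpace.norm_eq]
  unfold krnFun
  rw [Fin.sum_univ_four]
  simp

private theorem krnFun_cont : Continuous krnFun := by
  unfold krnFun
  apply (PiLp.continuous_toLp 2 _).comp
  apply continuous_pi
  intro i
  fin_cases i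
  · exact Real.continuous_cos.comp (continuous_const.mul continuous_id)
  · exact Real.continuous_sin.comp (continuous_const.mul continuous_id)
  · exact continuous_const
  · exact continuous_const

private theorem krnFun_one : krnFun 1 = -krnFun 0 := by
  unfold krnFun
  ext i
  fin_cases i <;> simp

/-- the half great circle, as a singular simplex -/
private noncomputable def krnArc : C(Sx 1, S3) :=
  ⟨fun t => ⟨krnFun (t 1), krnFun_norm _⟩,
    (krnFun_cont.comp ((continuous_apply 1).comp continuous_subtype_val)).subtype_mk _⟩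

private theorem krnArc_one :
    (krnArc (stdSimplex.vertex 1) : E4) = -(krnArc (stdSimplex.vertex 0) : E4) := by
  change krnFun ((stdSimplex.vertex 1 : Sx 1) 1) = -krnFun ((stdSimplex.vertex 0 : Sx 1) 1)
  have h1 : (stdSimplex.vertex 1 : Sx 1) 1 = (1 : ℝ) := by simp
  have h2 : (stdSimplex.vertex 0 : Sx 1) 1 = (0 : ℝ) := by simp
  rw [h1, h2, krnFun_one]

/-- **Krn.** -/
theorem tKrn (h1 : RPHomStmt) (h2 : Q.S_Cov) : S_Krn := by
  intro F _ hF U hU θ hθ z hz hθz
  obtain ⟨-, hlift, hun⟩ := h2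
  have hadd : ∀ a : F, a + a = 0 := fun a => by
    rw [← two_mul, hF, zero_mul]
  choose L hL using hlift 1
  let θ₀ : C(Sx 1, RP3) → F := fun σ =>
    zc F (sg (L σ (stdSimplex.vertex 0) : E4) + sg (L σ (stdSimplex.vertex 1) : E4))
  -- the value does not depend on the lift
  have hθ₀ : ∀ (σ : C(Sx 1, RP3)) (τ : C(Sx 1, S3)), (∀ t, mk (τ t) = σ t) →
      θ₀ σ = zc F (sg (τ (stdSimplex.vertex 0) : E4) + sg (τ (stdSimplex.vertex 1) : E4)) := by
    intro σ τ hτ
    have : PreconnectedSpace (Sx 1) :=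
      isPreconnected_iff_preconnectedSpace.1 (convex_stdSimplex ℝ (Fin 2)).isPreconnected
    change zc F (sg (L σ (stdSimplex.vertex 0) : E4) + sg (L σ (stdSimplex.vertex 1) : E4)) = _
    rcases hun (Sx 1) (L σ) τ (fun t => (hL σ t).trans (hτ t).symm) with h | h
    · rw [h]
    · have h3 : ∀ t, (τ t : E4) = -(L σ t : E4) := fun t => congrArg Subtype.val (h t)
      rw [h3, h3, sg_add_neg (krn_ne _) (krn_ne _)]
  let θ' : SC F RP3 1 →ₗ[F] F := Finsupp.linearCombination F θ₀
  have hθ1 : ∀ σ : C(Sx 1, RP3), θ' (Finsupp.single σ 1) = θ₀ σ := fun σ => by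
    change Finsupp.linearCombination F θ₀ (Finsupp.single σ 1) = _
    rw [Finsupp.linearCombination_single, one_smul]
  -- it vanishes on boundaries
  have hθb : ∀ c : SC F RP3 2, θ' (sbd F 1 c) = 0 := by
    intro c
    have h1 : θ' ∘ₗ (sbd F 1) = (0 : SC F RP3 2 →ₗ[F] F) := by
      apply slin_ext
      intro σ
      obtain ⟨ρ, hρ⟩ := hlift 2 σ
      rw [LinearMap.comp_apply, sbd_single, sbdv, map_sum]
      have h3 : ∀ i : Fin 3, θ' (Finsupp.single (face i σ) 1) =
          zc F (sg (ρ (stdSimplex.vertex (i.succAbove 0)) : E4)) +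
            zc F (sg (ρ (stdSimplex.vertex (i.succAbove 1)) : E4)) := by
        intro i
        rw [hθ1, hθ₀ (face i σ) (ρ.comp (smap i.succAbove)) (fun t => hρ _), ← zc_add hF]
        change zc F (sg (ρ (smap i.succAbove (stdSimplex.vertex 0)) : E4) +
          sg (ρ (smap i.succAbove (stdSimplex.vertex 1)) : E4)) = _
        rw [krn_smap_vertex, krn_smap_vertex]
      simp only [map_smul, h3]
      rw [Fin.sum_univ_three]
      have e1 : (0 : Fin 3).succAbove (1 : Fin 2) = 2 := rfl
      have e2 : (0 : Fin 3).succAbove (0 : Fin 2) = 1 := rfl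
      have e3 : (1 : Fin 3).succAbove (1 : Fin 2) = 2 := rfl
      have e4 : (1 : Fin 3).succAbove (0 : Fin 2) = 0 := rfl
      have e5 : (2 : Fin 3).succAbove (1 : Fin 2) = 1 := rfl
      have e6 : (2 : Fin 3).succAbove (0 : Fin 2) = 0 := rfl
      rw [e1, e2, e3, e4, e5, e6]
      have h4 := hadd (zc F (sg (ρ (stdSimplex.vertex 1) : E4)))
      simp only [LinearMap.zero_apply, smul_eq_mul]
      norm_num
      linear_combination h4
    exact LinearMap.congr_fun h1 c
  -- the cycle of the half great circle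
  have hz1 : IsCyc F 1 (Finsupp.single (mkC.comp krnArc) 1 : SC F RP3 1) := by
    change sbd F 0 (Finsupp.single (mkC.comp krnArc) 1) = 0
    rw [sbd_single, sbdv, Fin.sum_univ_two]
    have h3 : face 0 (mkC.comp krnArc) = face 1 (mkC.comp krnArc) := by
      ext1 t
      have ht : t = stdSimplex.vertex 0 := Subsingleton.elim _ _
      subst ht
      change mk (krnArc (smap (Fin.succAbove 0) (stdSimplex.vertex 0))) =
        mk (krnArc (smap (Fin.succAbove 1) (stdSimplex.vertex 0)))
      rw [krn_smap_vertex, krn_smap_vertex]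
      exact mk_eq.mpr (Or.inr krnArc_one)
    rw [h3]
    simp
  have hz1' : θ' (Finsupp.single (mkC.comp krnArc) 1) = 1 := by
    rw [hθ1, hθ₀ (mkC.comp krnArc) krnArc (fun t => rfl), krnArc_one, sg_neg (krn_ne _),
      ← zc_one F]
    congr 1
    have h3 := z2_add_self (sg (krnArc (stdSimplex.vertex 0) : E4))
    linear_combination h3
  -- cycles of projective space with `θ' = 0`
  have hmain : ∀ z' : SC F RP3 1, IsCyc F 1 z' → θ' z' = 0 → IsBdry F 1 z' := by
    intro z' hz' h3
    obtain ⟨v₀, hv⟩ := rank_le_one_iff.mp (h1 F)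
    have m1 : z' ∈ Zc F RP3 1 := (mem_Zc F).mpr hz'
    have m2 : (Finsupp.single (mkC.comp krnArc) 1 : SC F RP3 1) ∈ Zc F RP3 1 :=
      (mem_Zc F).mpr hz1
    let w1 : Zc F RP3 1 := ⟨z', m1⟩
    let w2 : Zc F RP3 1 := ⟨_, m2⟩
    obtain ⟨r, hr⟩ := hv (cls F RP3 1 w1)
    obtain ⟨s, hs⟩ := hv (cls F RP3 1 w2)
    have h4 : cls F RP3 1 (s • w1 + r • w2) = 0 := by
      rw [(cls F RP3 1).map_add, (cls F RP3 1).map_smul, (cls F RP3 1).map_smul, ← hr, ← hs,
        smul_smul, smul_smul, mul_comm s r, ← add_smul, hadd, zero_smul]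
    rw [cls_eq_zero] at h4
    obtain ⟨y, hy⟩ := h4
    have h5 := hθb y
    rw [hy] at h5
    have h6 : θ' (s • z' + r • Finsupp.single (mkC.comp krnArc) 1) = 0 := h5
    rw [map_add, map_smul, map_smul, h3, hz1', smul_zero, zero_add, smul_eq_mul, mul_one] at h6
    rw [h6, zero_smul] at hr
    exact (cls_eq_zero F w1).mp hr.symm
  -- comparison with `θ`
  have hcmp : θ' ∘ₗ smp F (incl U) 1 = θ := by
    apply slin_ext
    intro σ
    rw [LinearMap.comp_apply, smp_single, hθ1]
    exact (hθ σ (L ((incl U).comp σ)) (fun t => hL _ t)).symm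
  have h3 : IsBdry F 1 (smp F (incl U) 1 z) := by
    apply hmain _ (hz.smp (incl U))
    rw [← LinearMap.comp_apply, hcmp, hθz]
  have m1 : z ∈ Zc F U 1 := (mem_Zc F).mpr hz
  have h4 : Hmap F 1 (incl U) (cls F U 1 ⟨z, m1⟩) = 0 := by
    rw [Hmap_cls, cls_eq_zero]
    exact h3
  have h5 : cls F U 1 ⟨z, m1⟩ = 0 := hU (h4.trans (map_zero _).symm)
  exact (cls_eq_zero F ⟨z, m1⟩).mp h5

end T0

end TightRP
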