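import Pool.Agent.Lib.MP_7cdc3e_gt.T0.Spec

/-!
# MP_7cdc3e_gt, T0/Pot: potentials of classes of degree one on singular simplices
-/

set_option autoImplicit false

open HoloConj Pool.Agent.Lib.SingHom Module AS AS.R3

namespace TightRP

namespace T0

open Q (S3 mk mkC)

/-- the straight homotopy of a simplex to a point -/
private noncomputable def potF {n : ℕ} (v : Sx n) (t : ℝ) (x : Sx n) : Sx n :=
  ⟨(1 - (Set.projIcc (0 : ℝ) 1 zero_le_one t : ℝ)) • x.1 +
      (Set.projIcc (0 : ℝ) 1 zero_le_one t : ℝ) • v.1,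
    convex_stdSimplex ℝ (Fin (n + 1)) x.2 v.2
      (sub_nonneg.mpr (Set.projIcc (0 : ℝ) 1 zero_le_one t).2.2)
      (Set.projIcc (0 : ℝ) 1 zero_le_one t).2.1 (sub_add_cancel _ _)⟩

private theorem potF_cont {n : ℕ} (v : Sx n) : Continuous fun q : ℝ × Sx n => potF v q.1 q.2 := by
  unfold potF
  apply Continuous.subtype_mk
  have h1 : Continuous fun q : ℝ × Sx n => (Set.projIcc (0 : ℝ) 1 zero_le_one q.1 : ℝ) :=
    continuous_subtype_val.comp (continuous_projIcc.comp continuous_fst)
  exact ((continuous_const.sub h1).smul (continuous_subtype_val.comp continuous_snd)).add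
    (h1.smul continuous_const)

private theorem potF_zero {n : ℕ} (v x : Sx n) : potF v 0 x = x := by
  apply Subtype.ext
  change (1 - (Set.projIcc (0 : ℝ) 1 zero_le_one 0 : ℝ)) • x.1 +
    (Set.projIcc (0 : ℝ) 1 zero_le_one 0 : ℝ) • v.1 = x.1
  rw [Set.projIcc_left]
  simp

private theorem potF_one {n : ℕ} (v x : Sx n) : potF v 1 x = v := by
  apply Subtype.ext
  change (1 - (Set.projIcc (0 : ℝ) 1 zero_le_one 1 : ℝ)) • x.1 +
    (Set.projIcc (0 : ℝ) 1 zero_le_one 1 : ℝ) • v.1 = v.1
  rw [Set.projIcc_right]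
  simp

private theorem pot_adm {n : ℕ} (C : Set E4) (τ : C(Sx n, S3)) (hτ : ∀ t, (τ t : E4) ∈ C) :
    Adm (⊥ : Subgroup (Sx n ≃ᵢ Sx n)) ∅ Set.univ (Pm E4) ∅ C (fun t => (τ t : E4)) := by
  refine ⟨fun x _ => hτ x, fun x _ h => h.elim, ?_, ?_⟩
  · intro ε hε
    have h1 : UniformContinuous fun t => (τ t : E4) :=
      CompactSpace.uniformContinuous_of_continuous (continuous_subtype_val.comp τ.continuous)
    obtain ⟨δ, hδ, h2⟩ := Metric.uniformContinuous_iff.mp h1 ε hε
    exact ⟨δ, hδ, fun x _ y _ h => h2 h⟩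
  · intro g hg
    rw [Subgroup.mem_bot] at hg
    subst hg
    exact ⟨1, (Pm E4).one_mem, fun x => rfl⟩

private theorem pot_z2 : ∀ a b c d : ZMod 2, a + b = c + d → a + c = b + d := by decide

private theorem pot_z2' : ∀ a b c : ZMod 2, a + (b + c) = 0 → a = c + b := by decide

/-- **Pot.** -/
theorem tPot (h1 : AS.R3.S_Ctr) : S_Pot := by
  constructor
  · intro C φ hφ n τ hτ
    have hA := pot_adm C τ hτ
    have h2 := h1 (Sx n) Set.univ (potF (stdSimplex.vertex 0)) (stdSimplex.vertex 0) 0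
      isCompact_univ (Set.mem_univ _) (potF_cont _).continuousOn (fun _ _ _ _ => Set.mem_univ _)
      (fun x _ => potF_zero _ x) (fun x _ => potF_one _ x)
      (cl _ (hA.cyc (n := 1) hφ))
    rw [cl_eq_zero, mem_Bnd_succ] at h2
    obtain ⟨-, ψ', -, -, δ, hδ, h3⟩ := h2
    refine ⟨fun t => ψ' [t], δ, hδ, fun a b hab => ?_⟩
    have h4 := h3 [a, b] rfl ⟨fun _ _ => Set.mem_univ _, ?_⟩
    · rw [Pi.add_apply] at h4
      simp only [dd, List.map_cons, List.map_nil, add_zero] at h4
      exact pot_z2' _ _ _ h4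
    · intro x hx y hy
      simp only [List.mem_cons, List.not_mem_nil, or_false] at hx hy
      rcases hx with rfl | rfl <;> rcases hy with rfl | rfl
      · rw [dist_self]
        exact hδ
      · exact hab
      · rw [dist_comm]
        exact hab
      · rw [dist_self]
        exact hδ
  · intro φ n τ ψ ψ' ⟨δ, hδ, h2⟩ ⟨δ', hδ', h3⟩ a b
    have : PreconnectedSpace (Sx n) :=
      isPreconnected_iff_preconnectedSpace.1 (convex_stdSimplex ℝ (Fin (n + 1))).isPreconnected
    have hl : IsLocallyConstant fun t => ψ t + ψ' t := by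
      rw [IsLocallyConstant.iff_eventually_eq]
      intro x
      filter_upwards [Metric.ball_mem_nhds x (lt_min hδ hδ')] with y hy
      rw [Metric.mem_ball] at hy
      have h4 := h2 y x (hy.trans_le (min_le_left _ _))
      rw [h3 y x (hy.trans_le (min_le_right _ _))] at h4
      exact pot_z2 _ _ _ _ h4.symm
    exact pot_z2 _ _ _ _ (hl.apply_eq_of_preconnectedSpace a b)

end T0

end TightRP
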