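import Pool.Agent.Lib.MP_7cdc3e_gt.T0.Spec

/-!
# MP_7cdc3e_gt, T0/Tht: the homomorphism on singular chains defined by a class of degree one
-/

set_option autoImplicit false

open HoloConj Pool.Agent.Lib.SingHom Module AS AS.R3

namespace TightRP

namespace T0

open Q (S3 mk mkC)

private theorem tht_smap_vertex {m n : ℕ} (f : Fin m → Fin n) (i : Fin m) :
    (smap f) (stdSimplex.vertex i) = (stdSimplex.vertex (f i) : stdSimplex ℝ (Fin n)) := by
  rw [smap_eq_aff]
  exact aff_vertex _ i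

/-- a potential for a map is a potential for its composition with a continuous map of simplices -/
private theorem IsPot.comp {φ : List E4 → ZMod 2} {n m : ℕ} {τ : C(Sx n, S3)}
    {ψ : Sx n → ZMod 2} (h : IsPot φ τ ψ) (g : C(Sx m, Sx n)) :
    IsPot φ (τ.comp g) (fun t => ψ (g t)) := by
  obtain ⟨δ, hδ, h1⟩ := h
  have h2 : UniformContinuous g := CompactSpace.uniformContinuous_of_continuous g.continuous
  obtain ⟨δ', hδ', h3⟩ := Metric.uniformContinuous_iff.mp h2 δ hδ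
  exact ⟨δ', hδ', fun a b hab => h1 _ _ (h3 hab)⟩

/-- a potential for a map is a potential for its negative -/
private theorem IsPot.neg {φ : List E4 → ZMod 2} (hφ : Iv (Pm E4) φ) {n : ℕ} {τ τ' : C(Sx n, S3)}
    {ψ : Sx n → ZMod 2} (h : IsPot φ τ ψ) (h' : ∀ t, τ' t = -τ t) : IsPot φ τ' ψ := by
  obtain ⟨δ, hδ, h1⟩ := h
  refine ⟨δ, hδ, fun a b hab => ?_⟩
  have h2 := iv_Pm.mp hφ [(τ a : E4), (τ b : E4)]
  rw [← h1 a b hab, ← h2, h' a, h' b]
  rfl

/-- **Tht.** -/
theorem tTht (h1 : S_Pot) (h2 : Q.S_Cov) : S_Tht := by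
  intro F _ hF U C φ hφ hC
  obtain ⟨hex, huni⟩ := h1
  obtain ⟨-, hlift, hun⟩ := h2
  have hadd : ∀ a : F, a + a = 0 := fun a => by
    rw [← two_mul, hF, zero_mul]
  -- lifts and potentials
  have hLP : ∀ (n : ℕ) (σ : C(Sx n, U)), ∃ (τ : C(Sx n, S3)) (ψ : Sx n → ZMod 2),
      (∀ t, mk (τ t) = (σ t : RP3)) ∧ IsPot φ τ ψ := by
    intro n σ
    obtain ⟨τ, hτ⟩ := hlift n ((incl U).comp σ)
    have hτ' : ∀ t, mk (τ t) = (σ t : RP3) := fun t => hτ t
    obtain ⟨ψ, hψ⟩ := hex C φ hφ n τ fun t => hC ((mem_Ut (τ t)).mpr (by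
      rw [hτ' t]
      exact (σ t).2))
    exact ⟨τ, ψ, hτ', hψ⟩
  choose L P hL hP using hLP 1
  let θ₀ : C(Sx 1, U) → F := fun σ =>
    zc F (P σ (stdSimplex.vertex 0) + P σ (stdSimplex.vertex 1))
  -- the value does not depend on the lift and on the potential
  have hθ₀ : ∀ (σ : C(Sx 1, U)) (τ : C(Sx 1, S3)), (∀ t, mk (τ t) = (σ t : RP3)) →
      ∀ ψ, IsPot φ τ ψ → θ₀ σ = zc F (ψ (stdSimplex.vertex 0) + ψ (stdSimplex.vertex 1)) := by
    intro σ τ hτ ψ hψ
    have : PreconnectedSpace (Sx 1) :=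
      isPreconnected_iff_preconnectedSpace.1 (convex_stdSimplex ℝ (Fin 2)).isPreconnected
    have h3 : IsPot φ τ (P σ) := by
      rcases hun (Sx 1) (L σ) τ (fun t => (hL σ t).trans (hτ t).symm) with h | h
      · rw [← h]
        exact hP σ
      · exact (hP σ).neg hφ.1 h
    change zc F (P σ (stdSimplex.vertex 0) + P σ (stdSimplex.vertex 1)) = _
    rw [huni φ 1 τ (P σ) ψ h3 hψ]
  let θ : SC F U 1 →ₗ[F] F := Finsupp.linearCombination F θ₀
  have hθ1 : ∀ σ : C(Sx 1, U), θ (Finsupp.single σ 1) = θ₀ σ := fun σ => by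
    change Finsupp.linearCombination F θ₀ (Finsupp.single σ 1) = _
    rw [Finsupp.linearCombination_single, one_smul]
  refine ⟨θ, ?_, fun σ τ hτ ψ hψ => (hθ1 σ).trans (hθ₀ σ τ hτ ψ hψ)⟩
  -- the functional vanishes on boundaries
  intro c
  have h3 : θ ∘ₗ (sbd F 1) = (0 : SC F U 2 →ₗ[F] F) := by
    apply slin_ext
    intro ρ
    obtain ⟨τ, ψ, hτ, hψ⟩ := hLP 2 ρ
    rw [LinearMap.comp_apply, sbd_single, sbdv, map_sum]
    have h3 : ∀ i : Fin 3, θ (Finsupp.single (face i ρ) 1) =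
        zc F (ψ (stdSimplex.vertex (i.succAbove 0))) +
          zc F (ψ (stdSimplex.vertex (i.succAbove 1))) := by
      intro i
      rw [hθ1, hθ₀ (face i ρ) (τ.comp (smap i.succAbove)) (fun t => hτ _) _
        (hψ.comp (smap i.succAbove)), ← zc_add hF]
      change zc F (ψ (smap i.succAbove (stdSimplex.vertex 0)) +
        ψ (smap i.succAbove (stdSimplex.vertex 1))) = _
      rw [tht_smap_vertex, tht_smap_vertex]
    simp only [map_smul, h3]
    rw [Fin.sum_univ_three]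
    have e1 : (0 : Fin 3).succAbove (1 : Fin 2) = 2 := rfl
    have e2 : (0 : Fin 3).succAbove (0 : Fin 2) = 1 := rfl
    have e3 : (1 : Fin 3).succAbove (1 : Fin 2) = 2 := rfl
    have e4 : (1 : Fin 3).succAbove (0 : Fin 2) = 0 := rfl
    have e5 : (2 : Fin 3).succAbove (1 : Fin 2) = 1 := rfl
    have e6 : (2 : Fin 3).succAbove (0 : Fin 2) = 0 := rfl
    rw [e1, e2, e3, e4, e5, e6]
    have h4 := hadd (zc F (ψ (stdSimplex.vertex 1)))
    simp only [LinearMap.zero_apply, smul_eq_mul]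
    norm_num
    linear_combination h4
  exact LinearMap.congr_fun h3 c

end T0

end TightRP
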