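import Pool.Agent.Lib.AS.R3.All
import Pool.Agent.Lib.MP_7cdc3e_gt.Q.All
import Pool.Agent.Lib.MP_7cdc3e_gt.T0.Arc
import Pool.Agent.Lib.MP_7cdc3e_gt.T0.CmU
import Pool.Agent.Lib.MP_7cdc3e_gt.T0.EvO
import Pool.Agent.Lib.MP_7cdc3e_gt.T0.Exp
import Pool.Agent.Lib.MP_7cdc3e_gt.T0.F0
import Pool.Agent.Lib.MP_7cdc3e_gt.T0.F1
import Pool.Agent.Lib.MP_7cdc3e_gt.T0.Krn
import Pool.Agent.Lib.MP_7cdc3e_gt.T0.Pot
import Pool.Agent.Lib.MP_7cdc3e_gt.T0.Ten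
import Pool.Agent.Lib.MP_7cdc3e_gt.T0.Tht

/-!
# MP_7cdc3e_gt, T0: the exports without hypotheses
-/

set_option autoImplicit false

namespace TightRP

namespace T0

theorem okPot : S_Pot := tPot AS.R3.okCtr
theorem okTht : S_Tht := tTht okPot Q.qCov
theorem okKrn : S_Krn := tKrn Q.aRPHom Q.qCov
theorem okArc : S_Arc := tArc
theorem okF1 : S_F1 := tF1 okPot okTht okKrn okArc Q.qCov
theorem okF0 : S_F0 := tF0
theorem okCmU : S_CmU := tCmU
theorem okTen : S_Ten := tTen okF0 okF1 okCmU AS.R3.okChn AS.R3.okGn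
theorem okEvO : S_EvO := tEvO Q.qCov Q.aSph Q.aOdd

theorem oxPre : XPre := xPre (Ver.tConn tH0Path tH0Low)
theorem oxGen : XGen := xGen oxPre okTen
theorem oxTop : XTop := xTop AS.R3.okH3
theorem oxOne : XOne := xOne AS.R3.okOne
theorem oxEv : XEv := xEv AS.R3.okEv
theorem oxDic : XDic := xDic AS.R3.okDic okCmU
theorem oxOdd : XOdd := xOdd AS.R3.okOdd oxDic
theorem oxRm : XRm := xRm AS.R3.okRm okCmU AS.R3.okRP
theorem oxPow : XPow := xPow AS.R3.okPow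
theorem oxH1 : XH1 := xH1 okEvO

end T0

end TightRP
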