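import Pool.Agent.Lib.MP_7cdc3e_gt.Q.Spec
import Pool.Agent.Lib.AS.R3.Spec

/-!
# MP_7cdc3e_gt, part T0: closed half-space preimages in `RP³` and Alexander-Spanier cohomology

Bridge between singular homology of open subsets of `RP3` (tightness) and `H (Pm E4) ∅ k X` for closed
symmetric subsets `X` of the sphere `S` (`AS/Defs`, `AS/Pm`, `AS/R3`).  Every `S_...` is a statement to be
proved in its own file; the docstring contains the proof.  `mk : S3 → RP3` is the projection (`Q/Spec`).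
-/

set_option autoImplicit false

open HoloConj Pool.Agent.Lib.SingHom Module AS AS.R3

namespace TightRP

namespace T0

open Q (S3 mk mkC)

/-- the preimage in `ℝ⁴` of a subset of projective space -/
def Ut (U : Set RP3) : Set E4 := {x | ∃ h : x ∈ S, mk ⟨x, h⟩ ∈ U}

theorem Ut_sub (U : Set RP3) : Ut U ⊆ S := fun _ h => h.1

theorem mem_Ut {U : Set RP3} (x : S3) : (x : E4) ∈ Ut U ↔ mk x ∈ U :=
  ⟨fun h => h.2, fun h => ⟨x.2, h⟩⟩

theorem mk_eq {x y : S3} : mk x = mk y ↔ (x : E4) = y ∨ (x : E4) = -y := by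
  constructor
  · intro h
    exact Quotient.exact h
  · intro h
    exact Quotient.sound h

theorem mk_surj : Function.Surjective mk := fun q => Quotient.exists_rep q

theorem Ut_neg {U : Set RP3} {x : E4} (h : x ∈ Ut U) : -x ∈ Ut U := by
  obtain ⟨h1, h2⟩ := h
  refine ⟨neg_mem_S h1, ?_⟩
  have : mk ⟨-x, neg_mem_S h1⟩ = mk ⟨x, h1⟩ := mk_eq.mpr (Or.inr rfl)
  rw [this]
  exact h2

theorem Ut_closed {X : Set RP3} (hX : IsClosed X) : IsClosed (Ut X) := by
  have h1 : IsClosed (mk ⁻¹' X) := hX.preimage mkC.continuous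
  have h2 : Ut X = Subtype.val '' (mk ⁻¹' X) := by
    ext x
    constructor
    · rintro ⟨h, h'⟩
      exact ⟨⟨x, h⟩, h', rfl⟩
    · rintro ⟨y, hy, rfl⟩
      exact ⟨y.2, hy⟩
  rw [h2]
  exact isClosed_S.isClosedEmbedding_subtypeVal.isClosedMap _ h1

/-- preimages of closed sets are closed symmetric subsets of the sphere -/
theorem cs_Ut {X : Set RP3} (hX : IsClosed X) : Cs (Pm E4) (Ut X) :=
  ⟨Ut_closed hX, Ut_sub X, ivS_Pm.mpr fun _ h => Ut_neg h⟩

theorem Ut_mono {U V : Set RP3} (h : U ⊆ V) : Ut U ⊆ Ut V := fun _ hx => ⟨hx.1, h hx.2⟩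

theorem Ut_compl (U : Set RP3) : Ut Uᶜ = S \ Ut U := by
  ext x
  constructor
  · rintro ⟨h, h'⟩
    exact ⟨h, fun h2 => h' h2.2⟩
  · rintro ⟨h, h'⟩
    exact ⟨h, fun h2 => h' ⟨h, h2⟩⟩

/-- the inclusion `{0, 1} → F` -/
def zc (F : Type) [Field F] (c : ZMod 2) : F := if c = 0 then 0 else 1

theorem zc_zero (F : Type) [Field F] : zc F 0 = 0 := if_pos rfl

theorem zc_one (F : Type) [Field F] : zc F 1 = 1 := if_neg (by decide)

theorem zc_add {F : Type} [Field F] (h2 : (2 : F) = 0) (a b : ZMod 2) :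
    zc F (a + b) = zc F a + zc F b := by
  have h3 : (1 : F) + 1 = 0 := by
    rw [one_add_one_eq_two, h2]
  have h4 : (1 : ZMod 2) + 1 = 0 := by decide
  have h5 : ∀ c : ZMod 2, c = 0 ∨ c = 1 := by decide
  rcases h5 a with rfl | rfl <;> rcases h5 b with rfl | rfl <;>
    simp [zc_zero, zc_one, h3, h4]

theorem zc_inj {F : Type} [Field F] {a b : ZMod 2} (h : zc F a = zc F b) : a = b := by
  have h5 : ∀ c : ZMod 2, c = 0 ∨ c = 1 := by decide
  rcases h5 a with rfl | rfl <;> rcases h5 b with rfl | rfl <;>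
    simp [zc_zero, zc_one] at h ⊢

/-- `ψ` is a potential of the pullback of `φ` by `τ` -/
def IsPot (φ : List E4 → ZMod 2) {n : ℕ} (τ : C(Sx n, S3)) (ψ : Sx n → ZMod 2) : Prop :=
  ∃ δ > 0, ∀ a b : Sx n, dist a b < δ → φ [(τ a : E4), (τ b : E4)] = ψ a + ψ b

/-- **Pot** (90 lines; uses `S_Ctr`).  Potentials exist and are unique up to a constant.

Proof. (1) `τ` (with values in `E4`) is admissible from `(⊥, ∅, univ)` on `Sx n` to `(Pm E4, ∅, C)`: uniformly continuous as `Sx n` is compact, `eqv` with `g' = 1`.  `S_Ctr` for `X = Sx n`, `C = univ`, the straight homotopy `F t x = (1 - t) x + t v` to a vertex `v` (defined as `x` or `v`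
for `t ∉ [0,1]`): all classes of degree `1` on `Sx n` are `0`.  So `pull τ (cl φ) = 0`: `(fun l => φ (l.map τ)) ∈ Bnd ⊥ ∅ 1 univ` (`pull_cl`, `cl_eq_zero`, `mem_Bnd_succ`): there are `ψ'`, `δ` with `φ [τ a, τ b] + ψ' [b] + ψ' [a] = 0` for `dist a b < δ`; `ψ a = ψ' [a]`.
(2) `ψ a + ψ b = ψ' a + ψ' b` for `dist a b < δ`, so `ψ + ψ'` is locally constant on the preconnected space `Sx n` (convex), hence constant. -/
def S_Pot : Prop := (∀ (C : Set E4) (φ : List E4 → ZMod 2), φ ∈ Cyc (Pm E4) ∅ 1 C →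
    ∀ (n : ℕ) (τ : C(Sx n, S3)), (∀ t, (τ t : E4) ∈ C) → ∃ ψ, IsPot φ τ ψ) ∧
  ∀ (φ : List E4 → ZMod 2) (n : ℕ) (τ : C(Sx n, S3)) (ψ ψ' : Sx n → ZMod 2), IsPot φ τ ψ →
    IsPot φ τ ψ' → ∀ a b, ψ a + ψ b = ψ' a + ψ' b

/-- **Tht** (150 lines; uses `S_Pot`, `Q.S_Cov`).  The homomorphism on singular chains defined by a class of degree one.

Proof. Lifts exist by `S_Cov` (second part); two lifts `τ`, `τ'` of the same simplex are equal or opposite (third part), and by the invariance of `φ` (`φ.1`, `ng_mem`) a potential for `τ` is one for `-τ`.  So for `σ : C(Sx 1, U)` the number `I σ = ψ (vertex 1) + ψ (vertex 0)`, `ψ` any potential of any lift of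
`(incl U).comp σ` (exists: `S_Pot`, the lift has values in `Ut U ⊆ C`), does not depend on the choices (`S_Pot`, second part).  `θ = Finsupp.linearCombination F (fun σ => zc F (I σ))`.
Boundaries: it is enough (`slin_ext`, linearity) that `θ (sbdv F ρ) = 0` for `ρ : C(Sx 2, U)`.  Let `τ` be a lift of `(incl U).comp ρ`, `ψ` a potential of `τ`.  For `i : Fin 3` the face `face i τ = τ.comp (smap i.succAbove)` is a lift of the face of `ρ`, and `ψ ∘ smap i.succAbove` is a potential of it (uniform continuity of `smap`, for instance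
`dist_le_of_coord` or compactness).  `smap i.succAbove (vertex j) = vertex (i.succAbove j)` (`stdSimplex.map_vertex` or similar).  In characteristic two the signs `(-1)^i` are `1`, and the sum over the three faces of `ψ (vertex j) + ψ (vertex k)` contains every vertex twice: `zc_add`, `zc_zero`. -/
def S_Tht : Prop := ∀ (F : Type) [Field F], (2 : F) = 0 → ∀ (U : Set RP3) (C : Set E4)
  (φ : List E4 → ZMod 2), φ ∈ Cyc (Pm E4) ∅ 1 C → Ut U ⊆ C →
  ∃ θ : SC F U 1 →ₗ[F] F, (∀ c : SC F U 2, θ (sbd F 1 c) = 0) ∧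
    ∀ (σ : C(Sx 1, U)) (τ : C(Sx 1, S3)), (∀ t, mk (τ t) = (σ t : RP3)) →
      ∀ ψ, IsPot φ τ ψ →
        θ (Finsupp.single σ 1) = zc F (ψ (stdSimplex.vertex 0) + ψ (stdSimplex.vertex 1))

/-- **Krn** (110 lines; uses `RPHomStmt`, `S_Tht`).  A one-cycle of `U` with `θ_a = 0` is a boundary in `U`, if `H_1(U) → H_1(RP³)` is injective.

Proof. (1) Let `θ'` be the `θ` of `S_Tht` for `Set.univ`, `C = S`, `φ = aac` (`aac_cyc`), transported to `RP3` (chains of `↥Set.univ` and of `RP3`: `smp` along the homeomorphism `RP3 ≃ₜ ↥univ`): `θ' : SC F RP3 1 →ₗ[F] F` vanishes on boundaries, and `θ' (single σ 1) = zc F (sg (τ v₀) + sg (τ v₁))` for every lift `τ` of `σ`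
(`aac [x, y] = sg x + sg y` exactly, so `sg ∘ τ` is a potential).  The half great circle `τ t = (cos (π t_1), sin (π t_1), 0, 0)` has `τ v₁ = -τ v₀`, so `z₁ = single (mkC.comp τ) 1` is a cycle (its two faces are equal) with `θ' z₁ = zc F 1 = 1`.
(2) Let `z' ∈ Zc F RP3 1` with `θ' z' = 0`.  `H_1(RP³)` has rank `≤ 1` (`RPHomStmt`), so `cls z'`, `cls z₁` are linearly dependent: `a • cls z' + b • cls z₁ = 0` with `(a, b) ≠ 0`, so `a • z' + b • z₁` is a boundary (`cls_eq_zero`) and `b = θ' (a • z' + b • z₁) = 0`; so `a ≠ 0`, `cls z' = 0`.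
(3) For `z ∈ Zc F U 1`: `θ' (smp F (incl U) 1 z) = θ z` (on simplices: a lift of `σ` is a lift of `(incl U).comp σ`; the formulas for `θ`, `θ'` agree).  So if `θ z = 0` then `smp F (incl U) 1 z` is a boundary, `Hmap F 1 (incl U) (cls z) = 0` (`Hmap_cls`, `cls_eq_zero`), `cls z = 0` by `HInj`, `z` is a boundary. -/
def S_Krn : Prop := ∀ (F : Type) [Field F], (2 : F) = 0 → ∀ (U : Set RP3), HInj F U 1 →
  ∀ θ : SC F U 1 →ₗ[F] F,
    (∀ (σ : C(Sx 1, U)) (τ : C(Sx 1, S3)), (∀ t, mk (τ t) = (σ t : RP3)) →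
      θ (Finsupp.single σ 1) =
        zc F (sg (τ (stdSimplex.vertex 0) : E4) + sg (τ (stdSimplex.vertex 1) : E4))) →
    ∀ z : SC F U 1, IsCyc F 1 z → θ z = 0 → IsBdry F 1 z

/-- **Arc** (70 lines).  Short arcs.

Proof. `X` is compact and contained in `Ut U`, which is open in `S` (the image of the open set `mk ⁻¹' U` of `S3`): there is `η > 0`, `η ≤ ε`, with `x ∈ Ut U` for all `x ∈ S` with `dist x p < η` for some `p ∈ X` (`IsCompact.exists_thickening_subset_open` for an open set `O` of `E4` with `O ∩ S = Ut U`).  For `p, q ∈ S` with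
`dist p q < δ ≤ 1/2` let `w t = (1 - t_1) • p + t_1 • q` (`t ∈ Sx 1`, `t_1` its second coordinate), `‖w t - p‖ ≤ δ`, `‖w t‖ ≥ 1/2`, `s t = ‖w t‖⁻¹ • w t`, `dist (s t) p ≤ ‖w t‖⁻¹ • |1 - ‖w t‖| ‖w t‖ + δ ≤ 2 δ`.  Take `δ < η / 2`. -/
def S_Arc : Prop := ∀ (U : Set RP3) (X : Set E4) (ε : ℝ), IsOpen U → IsCompact X → X ⊆ Ut U →
  0 < ε → ∃ δ > 0, ∀ p ∈ X, ∀ q ∈ X, dist p q < δ → ∃ s : C(Sx 1, S3),
    (s (stdSimplex.vertex 0) : E4) = p ∧ (s (stdSimplex.vertex 1) : E4) = q ∧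
    ∀ t, mk (s t) ∈ U ∧ dist (s t : E4) p < ε

/-- **F1** (200 lines; uses `S_Pot`, `S_Tht`, `S_Krn`, `S_Arc`, `Q.S_Cov`).  Degree one: a class on `C ⊇ Ut U` restricts to `0` or `a` on `X ⊆ Ut U`.

Proof. `φ` represents `y`: invariant, `dd φ = 0` on the `ε`-small lists of length `3` in `C`; `φ [p, p] = dd φ [p, p, p] = 0` for `p ∈ C`.  If `U = ∅` then `X = ∅` (`H_empty`).  Fix `b ∈ U`; `U` is path connected (open, preconnected, `RP3` is locally path connected: it is `LocEuc3`; or take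
path components of `U`), so for `u ∈ U` choose `σ_u : C(Sx 1, U)` with `σ_u v₀ = b`, `σ_u v₁ = u` (`v_i = stdSimplex.vertex i`).  `θ`, `θ_a` from `S_Tht` for `φ` and for `aac` (on `C`).  `S_Arc` (with this `ε`, made smaller so that also `2 ε`-small is enough: use `ε / 3`) gives `δ` and arcs `s_{pq}` for `p, q ∈ X`, `dist p q < δ`; regard
`mk ∘ s_{pq}` as `σ_{pq} : C(Sx 1, U)`.  `ψ t = φ [p, s_{pq} t]` is a potential of `s_{pq}`: for close `t, t'`, `dd φ [p, s t, s t'] = 0` gives `φ [s t, s t'] = φ [p, s t'] + φ [p, s t]`.  So (`S_Tht`) `θ (single σ_{pq} 1) = zc F (φ [p, p] + φ [p, q]) = zc F (φ [p, q])`, and the same for `θ_a` and `aac`.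
For `u ∈ U` let `I u`, `J u ∈ ZMod 2` be with `θ (single σ_u 1) = zc F (I u)`, `θ_a (single σ_u 1) = zc F (J u)` (a lift and a potential exist).
`z_{pq} = single σ_{mk p} 1 + single σ_{pq} 1 - single σ_{mk q} 1` is a cycle (`sbdv` of the three simplices; `face 0`, `face 1` are the constant simplices at the end points), `θ z_{pq} = zc F (I (mk p) + φ [p, q] + I (mk q))`, `θ_a z_{pq} = zc F (J (mk p) + aac [p, q] + J (mk q))` (`zc_add`, `-1 = 1`).
FACT: if a cycle `z` of `U` has `θ_a z = 0` then `z` is a boundary (`S_Krn`: its hypothesis for `θ_a` holds since `sg ∘ τ` is a potential for `aac`), so `θ z = 0`.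
Choose `c ∈ ZMod 2`: if all `θ_a z_{pq}` (`p, q ∈ X`, `dist p q < δ`) are `0`, `c = 0`.  Otherwise some `θ_a z₀ = 1`; `c` with `zc F c = θ z₀`.  In both cases `θ z_{pq} = zc F c * θ_a z_{pq}` for all these `p, q` (if `θ_a z_{pq} = 1` apply FACT to `z_{pq} - z₀`).  Hence (`zc_inj`)
`φ [p, q] = c * aac [p, q] + Ψ p + Ψ q`, `Ψ p = I (mk p) + c * J (mk p)` for `p ∈ S` (`0` elsewhere), which is invariant.  So `cl φ` on `X` is `0` (`c = 0`) or `cl aac = ap 1 X` (`c = 1`, `apc_one`), by `mem_Bnd_succ` with the function `l = [p] ↦ Ψ p`. -/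
def S_F1 : Prop := ∀ (F : Type) [Field F], (2 : F) = 0 → ∀ (U : Set RP3) (X C : Set E4),
  IsOpen U → IsPreconnected U → HInj F U 1 → Cs (Pm E4) C → Cs (Pm E4) X → X ⊆ Ut U →
  Ut U ⊆ C → ∀ (hXC : X ⊆ C) (h0 : (0 : E4) ∉ X) (y : H (Pm E4) ∅ 1 C),
    res hXC 1 y = 0 ∨ res hXC 1 y = ap 1 X h0

/-- **F0** (60 lines).  Degree zero.

Proof. `φ` represents `y`: invariant, `φ [p] = φ [q]` for `p, q ∈ C`, `dist p q < ε`.  `V_c = {x ∈ Ut U | φ [x] = c}`, `c = 0, 1`, is open in `S`, symmetric; the images `mk V_0`, `mk V_1` are open in `RP3` (`mk` is open: the preimage of `mk V` is `V ∪ -V`), disjoint (invariance), cover `U`.  `U` is preconnected: one of them is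
empty, so `φ [x]` is constant on `X`: value `0`: `res y = 0` (`mem_Bnd_zero`); value `1`: `φ + apc 0` vanishes on the lists `[x]`, `x ∈ X` (`apc_pos`, `pr [x] = 1`), `cl_eq_cl`. -/
def S_F0 : Prop := ∀ (U : Set RP3) (X C : Set E4), IsOpen U → IsPreconnected U →
  Cs (Pm E4) C → X ⊆ Ut U → Ut U ⊆ C →
  ∀ (hXC : X ⊆ C) (h0 : (0 : E4) ∉ X) (y : H (Pm E4) ∅ 0 C),
    res hXC 0 y = 0 ∨ res hXC 0 y = ap 0 X h0

/-- **CmU** (50 lines).  Complements of connected open sets.

Proof. Let `A`, `B` be closed, symmetric, `A ∪ B = S`, `A ∩ B = S \ Ut V`.  `A' = {q | ∃ x : S3, mk x = q ∧ (x : E4) ∉ A}` is open (`mk` is open, or: its preimage is `{x | x ∉ A}` by symmetry, and `RP3` has the quotient topology), the same for `B'`.  `V = A' ∪ B'`, `A' ∩ B' = ∅` (symmetry and `A ∪ B = S`).  `V` is preconnected: `A' = ∅` or `B' = ∅`,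
so `A = S` (then `B = S \ Ut V`) or `B = S`. -/
def S_CmU : Prop := ∀ V : Set RP3, IsOpen V → IsPreconnected V → Cmod (Pm E4) (S \ Ut V)

/-- **Ten** (90 lines; uses `S_F0`, `S_F1`, `S_CmU`, `R3.S_Chn`, `R3.S_Gn`).  Closed superlevel sets of a tight function.

Proof. `X = Ut {x | 0 ≤ g x}`: `cs_Ut`.  `S_Gn`: `Cmod (Pm E4) X` by `S_CmU` with `V = {g < 0}` (`Ut_compl`).  Degrees `k ≤ 1`: `C_n = Ut {x | -1/(n+1) ≤ g x}`, `𝒞 = Set.range C_n` is a nonempty chain of sets in `Cs (Pm E4)` with intersection `X`.  `S_Chn`: a class `y` on `X` is the restriction of a class `y'` on some `C_n` (careful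
with the types: first prove the claim for `⋂₀ 𝒞` instead of `X`, then rewrite).  `S_F0`, `S_F1` with `U = {-1/(n+1) < g}`: `X ⊆ Ut U ⊆ C_n`, so `y = res y'` is `0` or `ap k X`. -/
def S_Ten : Prop := ∀ (F : Type) [Field F], (2 : F) = 0 → ∀ g : RP3 → ℝ, Continuous g →
  (∀ c : ℝ, IsPreconnected {x | c < g x}) → (∀ c : ℝ, IsPreconnected {x | g x < c}) →
  (∀ c : ℝ, HInj F {x | c < g x} 1) → Gen (Ut {x | 0 ≤ g x})

/-- `V` is even: the double covering is trivial over `V` -/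
def EvV (V : Set RP3) : Prop := ∃ W : Set E4, IsOpen W ∧ ∀ y ∈ Ut V, (y ∈ W ↔ -y ∉ W)

/-- **EvO** (120 lines; uses `Q.S_Cov`, `Q.S_Sph`, `Q.S_Odd`, `R3.S_Dic`, `S_CmU`).  Even open sets and `H_1`.

Proof. (→) `EvV V`, `W` as in the definition: `A = {x : S3 | mk x ∈ V ∧ x ∈ W}` is open, `mk` maps it bijectively to `V`, and is open: the inverse is a continuous lift `j : C(V, S3)` of the inclusion, `mk ∘ j = incl V`.  `H_1(S³) = 0` (`Q.S_Sph`), so `Hmap F 1 (incl V) = 0` (`Hmap_comp`), and by `HInj` `H_1(V) = 0`.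
(←) `S_CmU` and `S_Dic` for `X = S \ Ut V` (`S \ X = Ut V`): if `Evn X` then `EvV V` (same `W`).  Otherwise `Ut V` is preconnected, open in `S`, so path connected (`S3` is locally path connected); if it is nonempty there is a path in `Ut V` from some `x` to `-x`, a `τ : C(Sx 1, S3)`; `mk ∘ τ` is a cycle in `V` which is not a boundary in
`RP3` (`Q.S_Odd`), so not in `V`: `H_1(V) ≠ 0`.  If `Ut V` is empty then `V` is empty and `EvV V`. -/
def S_EvO : Prop := ∀ (F : Type) [Field F], (2 : F) = 0 → ∀ V : Set RP3, IsOpen V →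
  IsPreconnected V → HInj F V 1 → (EvV V ↔ Subsingleton (Hq F 1 V))

end T0

end TightRP
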