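import Pool.Agent.Lib.MP_7cdc3e_gt.T0.Spec

/-!
# MP_7cdc3e_gt, T0/Ten: closed superlevel sets of tight functions (helper20)
-/

set_option autoImplicit false

open HoloConj Pool.Agent.Lib.SingHom Module AS AS.R3

namespace TightRP

namespace T0

open Q (S3 mk mkC)

theorem tTen (h1 : S_F0) (h2 : S_F1) (h3 : S_CmU) (h4 : AS.R3.S_Chn) (h5 : AS.R3.S_Gn) :
    S_Ten := by
  intro F _ hF g hg hup hlo hinj
  -- the approximating sets
  set 𝒞 : Set (Set E4) := Set.range fun n : ℕ => Ut {x | -(1 / ((n : ℝ) + 1)) ≤ g x} with h𝒞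
  have hpos : ∀ n : ℕ, (0 : ℝ) < 1 / ((n : ℝ) + 1) := fun n => by positivity
  have hcl : ∀ c : ℝ, IsClosed {x | c ≤ g x} := fun c => isClosed_le continuous_const hg
  have hne : 𝒞.Nonempty := ⟨_, 0, rfl⟩
  have hch : IsChain (· ⊆ ·) 𝒞 := by
    rintro _ ⟨n, rfl⟩ _ ⟨m, rfl⟩ _
    rcases le_total n m with h | h
    · refine Or.inr (Ut_mono fun x hx => ?_)
      have h6 : 1 / ((m : ℝ) + 1) ≤ 1 / ((n : ℝ) + 1) := by
        apply one_div_le_one_div_of_le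
        · positivity
        · have : (n : ℝ) ≤ m := by exact_mod_cast h
          linarith
      have h7 : -(1 / ((m : ℝ) + 1)) ≤ g x := hx
      show -(1 / ((n : ℝ) + 1)) ≤ g x
      linarith
    · refine Or.inl (Ut_mono fun x hx => ?_)
      have h6 : 1 / ((n : ℝ) + 1) ≤ 1 / ((m : ℝ) + 1) := by
        apply one_div_le_one_div_of_le
        · positivity
        · have : (m : ℝ) ≤ n := by exact_mod_cast h
          linarith
      have h7 : -(1 / ((n : ℝ) + 1)) ≤ g x := hx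
      show -(1 / ((m : ℝ) + 1)) ≤ g x
      linarith
  have hcs : ∀ C ∈ 𝒞, Cs (Pm E4) C := by
    rintro _ ⟨n, rfl⟩
    exact cs_Ut (hcl _)
  have hX : Ut {x | 0 ≤ g x} = ⋂₀ 𝒞 := by
    ext y
    constructor
    · rintro ⟨hyS, hy⟩ _ ⟨n, rfl⟩
      refine ⟨hyS, ?_⟩
      have h6 : 0 ≤ g (mk ⟨y, hyS⟩) := hy
      have := hpos n
      show -(1 / ((n : ℝ) + 1)) ≤ g (mk ⟨y, hyS⟩)
      linarith
    · intro hy
      obtain ⟨hyS, _⟩ := hy _ ⟨0, rfl⟩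
      refine ⟨hyS, ?_⟩
      show 0 ≤ g (mk ⟨y, hyS⟩)
      by_contra hcon
      push Not at hcon
      obtain ⟨n, hn⟩ := exists_nat_one_div_lt (neg_pos.mpr hcon)
      have h7 : -(1 / ((n : ℝ) + 1)) ≤ g (mk ⟨y, hyS⟩) := (hy _ ⟨n, rfl⟩).2
      linarith
  have hcsX : Cs (Pm E4) (⋂₀ 𝒞) := Cs.sInter hcs hne
  -- the complement
  have hcm : Cmod (Pm E4) (⋂₀ 𝒞) := by
    have h6 := h3 {x | g x < 0} (isOpen_lt hg continuous_const) (hlo 0)
    have h7 : S \ Ut {x | g x < 0} = ⋂₀ 𝒞 := by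
      rw [← hX, ← Ut_compl]
      congr 1
      ext x
      simp
    rwa [h7] at h6
  rw [hX]
  refine h5 _ hcsX hcm fun h0 k y hk => ?_
  -- degrees zero and one
  obtain ⟨hext, _⟩ := h4 E4 (Pm E4) ∅ 𝒞 k (OkD.empty _) hne hch fun C hC => (hcs C hC).ok gp_Pm
  obtain ⟨_, ⟨n, rfl⟩, y', hy'⟩ := hext y
  have hop : IsOpen {x | -(1 / ((n : ℝ) + 1)) < g x} := isOpen_lt continuous_const hg
  have hXU : ⋂₀ 𝒞 ⊆ Ut {x | -(1 / ((n : ℝ) + 1)) < g x} := by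
    rw [← hX]
    refine Ut_mono fun x hx => ?_
    have h6 : 0 ≤ g x := hx
    have := hpos n
    show -(1 / ((n : ℝ) + 1)) < g x
    linarith
  have hUC : Ut {x | -(1 / ((n : ℝ) + 1)) < g x} ⊆ Ut {x | -(1 / ((n : ℝ) + 1)) ≤ g x} :=
    Ut_mono fun x (hx : -(1 / ((n : ℝ) + 1)) < g x) => show -(1 / ((n : ℝ) + 1)) ≤ g x from hx.le
  have hk' : k = 0 ∨ k = 1 := by omega
  rcases hk' with rfl | rfl
  · rw [← hy']
    exact h1 _ _ _ hop (hup _) (hcs _ ⟨n, rfl⟩) hXU hUC _ h0 y'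
  · rw [← hy']
    exact h2 F hF _ _ _ hop (hup _) (hinj _) (hcs _ ⟨n, rfl⟩) hcsX hXU hUC _ h0 y'

end T0

end TightRP
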